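import Mathlib

/-!
# Finitely generated commutative groups: small lemmas
-/

set_option autoImplicit false

namespace Pool.Agent.AbSub

/-- a subgroup of a finitely generated commutative group is finitely generated -/
theorem fg_sub {G : Type*} [CommGroup G] [hG : Group.FG G] (U : Subgroup G) : U.FG := by
  have h1 : AddGroup.FG (Additive G) := GroupFG.iff_add_fg.mp hG
  have h2 : Module.Finite ℤ (Additive G) := Module.Finite.iff_addGroup_fg.mpr h1
  have h3 : IsNoetherian ℤ (Additive G) := inferInstance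
  rw [Subgroup.fg_iff_add_fg]
  have h4 := h3.noetherian (AddSubgroup.toIntSubmodule (Subgroup.toAddSubgroup U))
  rw [Submodule.fg_iff_addSubgroup_fg] at h4
  exact h4

/-- a subgroup of a finitely generated subgroup of a commutative group is finitely generated -/
theorem fg_le {G : Type*} [CommGroup G] {B U : Subgroup G} (hB : B.FG) (h : U ≤ B) : U.FG := by
  have h1 : Group.FG B := (Group.fg_iff_subgroup_fg B).mpr hB
  have h2 := fg_sub (U.subgroupOf B)
  have h3 : (U.subgroupOf B).map B.subtype = U := by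
    rw [Subgroup.subgroupOf_map_subtype, inf_eq_left.mpr h]
  rw [← h3]
  rw [Subgroup.fg_iff_submonoid_fg] at h2 ⊢
  exact h2.map B.subtype

/-- the same in a noncommutative group -/
theorem fg_le' {Ω : Type*} [Group Ω] {B U : Subgroup Ω} (hB : B.FG) (h : U ≤ B)
    (hab : ∀ a ∈ B, ∀ b ∈ B, a * b = b * a) : U.FG := by
  let _ : CommGroup B := { (inferInstance : Group B) with
    mul_comm := fun a b => Subtype.ext (hab a.1 a.2 b.1 b.2) }
  have h1 : Group.FG B := (Group.fg_iff_subgroup_fg B).mpr hB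
  have h2 := fg_sub (U.subgroupOf B)
  have h3 : (U.subgroupOf B).map B.subtype = U := by
    rw [Subgroup.subgroupOf_map_subtype, inf_eq_left.mpr h]
  rw [← h3]
  rw [Subgroup.fg_iff_submonoid_fg] at h2 ⊢
  exact h2.map B.subtype

/-- finite index from powers -/
theorem finiteIndex_of_pow {G : Type*} [CommGroup G] [hG : Group.FG G] (U : Subgroup G) (t : ℕ)
    (ht : t ≠ 0) (h : ∀ x : G, x ^ t ∈ U) : U.FiniteIndex := by
  have h1 : Group.FG (G ⧸ U) := inferInstance
  have h2 : Finite (G ⧸ U) := by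
    apply CommGroup.finite_of_fg_isMulTorsion
    intro x
    obtain ⟨y, rfl⟩ := QuotientGroup.mk_surjective x
    rw [isOfFinOrder_iff_pow_eq_one]
    refine ⟨t, Nat.pos_of_ne_zero ht, ?_⟩
    rw [← QuotientGroup.mk_pow, QuotientGroup.eq_one_iff]
    exact h y
  exact Subgroup.finiteIndex_of_finite_quotient

theorem finiteIndex_of_pow_le {G : Type*} [CommGroup G] {B U : Subgroup G} (hB : B.FG) (t : ℕ)
    (ht : t ≠ 0) (h : ∀ x ∈ B, x ^ t ∈ U) : (U.subgroupOf B).FiniteIndex := by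
  have h1 : Group.FG B := (Group.fg_iff_subgroup_fg B).mpr hB
  refine finiteIndex_of_pow _ t ht fun x => ?_
  rw [Subgroup.mem_subgroupOf, Subgroup.coe_pow]
  exact h x.1 x.2

theorem finiteIndex_of_pow_le' {Ω : Type*} [Group Ω] {B U : Subgroup Ω} (hB : B.FG)
    (hab : ∀ a ∈ B, ∀ b ∈ B, a * b = b * a) (t : ℕ)
    (ht : t ≠ 0) (h : ∀ x ∈ B, x ^ t ∈ U) : (U.subgroupOf B).FiniteIndex := by
  let _ : CommGroup B := { (inferInstance : Group B) with
    mul_comm := fun a b => Subtype.ext (hab a.1 a.2 b.1 b.2) }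
  have h1 : Group.FG B := (Group.fg_iff_subgroup_fg B).mpr hB
  refine finiteIndex_of_pow _ t ht fun x => ?_
  rw [Subgroup.mem_subgroupOf, Subgroup.coe_pow]
  exact h x.1 x.2

/-- the exponent of the torsion -/
theorem exists_torsion_exp (G : Type*) [CommGroup G] [hG : Group.FG G] :
    ∃ t : ℕ, t ≠ 0 ∧ ∀ x : G, (∃ k : ℕ, k ≠ 0 ∧ x ^ k = 1) → x ^ t = 1 := by
  have h1 : (CommGroup.torsion G).FG := fg_sub _
  have h2 : Group.FG (CommGroup.torsion G) := (Group.fg_iff_subgroup_fg _).mpr h1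
  have h3 : Finite (CommGroup.torsion G) := by
    apply CommGroup.finite_of_fg_isMulTorsion
    intro x
    have h4 := x.2
    rw [CommGroup.mem_torsion] at h4
    rw [isOfFinOrder_iff_pow_eq_one] at h4 ⊢
    obtain ⟨k, hk, h5⟩ := h4
    exact ⟨k, hk, Subtype.ext (by rw [Subgroup.coe_pow, h5]; rfl)⟩
  refine ⟨Nat.card (CommGroup.torsion G), Nat.card_pos.ne', ?_⟩
  rintro x ⟨k, hk, hx⟩
  have h6 : x ∈ CommGroup.torsion G := by
    rw [CommGroup.mem_torsion, isOfFinOrder_iff_pow_eq_one]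
    exact ⟨k, Nat.pos_of_ne_zero hk, hx⟩
  have h7 : (⟨x, h6⟩ : CommGroup.torsion G) ^ Nat.card (CommGroup.torsion G) = 1 := pow_card_eq_one'
  have h8 := congrArg Subtype.val h7
  rw [Subgroup.coe_pow] at h8
  exact h8

/-- torsion modulo a subgroup -/
theorem exists_sat_exp {G : Type*} [CommGroup G] [hG : Group.FG G] (B : Subgroup G) :
    ∃ t : ℕ, t ≠ 0 ∧ ∀ x : G, (∃ k : ℕ, k ≠ 0 ∧ x ^ k ∈ B) → x ^ t ∈ B := by
  have h1 : Group.FG (G ⧸ B) := inferInstance
  obtain ⟨t, ht, h⟩ := exists_torsion_exp (G ⧸ B)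
  refine ⟨t, ht, ?_⟩
  rintro x ⟨k, hk, hx⟩
  have h2 := h (x : G ⧸ B) ⟨k, hk, by rw [← QuotientGroup.mk_pow, QuotientGroup.eq_one_iff]; exact hx⟩
  rw [← QuotientGroup.mk_pow, QuotientGroup.eq_one_iff] at h2
  exact h2

end Pool.Agent.AbSub
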