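import Mathlib

/-!
AbSub (captain helper72), module 8 (helper68): a commutative ring which is free and finite over `ℤ` has finitely many
homomorphisms into the integers of one number field whose common kernel is the nilradical.
-/

set_option autoImplicit false

open NumberField

namespace Pool.Agent.AbSub

theorem intCast_mem_minimal {R : Type*} [CommRing R] [Module.Free ℤ R] {p : Ideal R}
    (hp : p ∈ minimalPrimes R) {n : ℤ} (hn : (n : R) ∈ p) : n = 0 := by
  by_contra h0
  refine Set.disjoint_left.mp (Ideal.disjoint_nonZeroDivisors_of_mem_minimalPrimes hp) hn ?_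
  show (n : R) ∈ nonZeroDivisors R
  rw [mem_nonZeroDivisors_iff_right]
  intro z hz
  have h1 : n • z = 0 := by
    rw [zsmul_eq_mul, mul_comm]
    exact hz
  have := (smul_eq_zero.1 h1)
  tauto

theorem exists_hom_minimal {R : Type} [CommRing R] [Module.Free ℤ R] [Module.Finite ℤ R] (p : Ideal R)
    (hp : p ∈ minimalPrimes R) : ∃ φ : R →+* AlgebraicClosure ℚ, RingHom.ker φ = p := by
  have hpr : p.IsPrime := hp.1.1
  have hchar : CharZero (R ⧸ p) := by
    refine charZero_of_inj_zero fun n hn => ?_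
    have h1 : ((n : ℤ) : R) ∈ p := by
      rw [Int.cast_natCast, ← Ideal.Quotient.eq_zero_iff_mem, map_natCast]
      exact hn
    exact_mod_cast intCast_mem_minimal hp h1
  have hfin : Module.Finite ℤ (R ⧸ p) :=
    Module.Finite.of_surjective (Ideal.Quotient.mkₐ ℤ p).toLinearMap Ideal.Quotient.mk_surjective
  have hint : Algebra.IsIntegral ℤ (R ⧸ p) := Algebra.IsIntegral.of_finite ℤ (R ⧸ p)
  let f : (R ⧸ p) →ₐ[ℤ] AlgebraicClosure ℚ := IsAlgClosed.lift
  have hker : RingHom.ker f = ⊥ := by
    refine Ideal.eq_bot_of_comap_eq_bot (R := ℤ) ?_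
    rw [eq_bot_iff]
    intro n hn
    rw [Ideal.mem_comap, RingHom.mem_ker, AlgHom.commutes] at hn
    rw [Ideal.mem_bot]
    simpa using hn
  refine ⟨(f : (R ⧸ p) →+* AlgebraicClosure ℚ).comp (Ideal.Quotient.mk p), ?_⟩
  ext x
  rw [RingHom.mem_ker, RingHom.comp_apply]
  have h1 : (f : (R ⧸ p) →+* AlgebraicClosure ℚ) (Ideal.Quotient.mk p x) = 0 ↔ Ideal.Quotient.mk p x ∈ RingHom.ker f :=
    Iff.rfl
  rw [h1, hker, Ideal.mem_bot, Ideal.Quotient.eq_zero_iff_mem]

theorem exists_homs (R : Type) [CommRing R] [Module.Free ℤ R] [Module.Finite ℤ R] :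
    ∃ (L : Type) (_ : Field L) (_ : NumberField L) (m : ℕ) (χ : Fin m → (R →+* 𝓞 L)),
      ∀ r : R, (∀ i, χ i r = 0) → IsNilpotent r := by
  classical
  have hN0 : IsNoetherian ℤ R := isNoetherian_of_isNoetherianRing_of_finite ℤ R
  have hN : IsNoetherianRing R := isNoetherian_of_tower ℤ hN0
  have hfin : (minimalPrimes R).Finite := minimalPrimes.finite_of_isNoetherianRing R
  have hex : ∀ p : (minimalPrimes R), ∃ φ : R →+* AlgebraicClosure ℚ, RingHom.ker φ = p.1 :=
    fun p => exists_hom_minimal p.1 p.2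
  choose φ hφ using hex
  have := hfin.to_subtype
  have := Fintype.ofFinite (minimalPrimes R)
  let e := Fintype.equivFin (minimalPrimes R)
  let b := Module.Free.chooseBasis ℤ R
  let S : Set (AlgebraicClosure ℚ) := Set.range fun q : (minimalPrimes R) × Module.Free.ChooseBasisIndex ℤ R => φ q.1 (b q.2)
  have hS : S.Finite := Set.finite_range _
  have hint : ∀ (p : minimalPrimes R) (r : R), IsIntegral ℤ (φ p r) := fun p r =>
    (Algebra.IsIntegral.isIntegral (R := ℤ) r).map ((φ p).toIntAlgHom)
  let L : IntermediateField ℚ (AlgebraicClosure ℚ) := IntermediateField.adjoin ℚ S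
  have hL : FiniteDimensional ℚ L := by
    refine IntermediateField.finiteDimensional_adjoin fun x hx => ?_
    obtain ⟨q, rfl⟩ := hx
    exact (hint q.1 (b q.2)).tower_top
  have hNF : NumberField L := { to_charZero := inferInstance, to_finiteDimensional := hL }
  have hmem : ∀ (p : minimalPrimes R) (r : R), φ p r ∈ L := by
    intro p r
    rw [← b.sum_repr r, map_sum]
    refine sum_mem fun i _ => ?_
    rw [zsmul_eq_mul, map_mul, map_intCast]
    refine mul_mem (intCast_mem L _) (IntermediateField.subset_adjoin ℚ S ⟨(p, i), rfl⟩)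
  let ψ : (minimalPrimes R) → (R →+* L) := fun p => (φ p).codRestrict L.toSubring (hmem p)
  have hψ : ∀ p r, ((ψ p r : L) : AlgebraicClosure ℚ) = φ p r := fun _ _ => rfl
  have hψint : ∀ p r, IsIntegral ℤ (ψ p r) := by
    intro p r
    have h1 := hint p r
    rw [← hψ] at h1
    exact (isIntegral_algebraMap_iff (algebraMap L (AlgebraicClosure ℚ)).injective).1 h1
  let χ : (minimalPrimes R) → (R →+* 𝓞 L) := fun p =>
    (ψ p).codRestrict (integralClosure ℤ L) (hψint p)
  have hχ : ∀ p r, χ p r = 0 → r ∈ p.1 := by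
    intro p r h
    have h1 : ψ p r = 0 := congrArg (fun z : 𝓞 L => (z : L)) h
    have h2 : φ p r = 0 := by
      rw [← hψ, h1]
      rfl
    rw [← hφ p, RingHom.mem_ker]
    exact h2
  refine ⟨L, inferInstance, hNF, Fintype.card (minimalPrimes R), fun i => χ (e.symm i), fun r hr => ?_⟩
  rw [← mem_nilradical, nilradical, ← Ideal.sInf_minimalPrimes, Submodule.mem_sInf]
  intro p hp
  have h1 := hr (e ⟨p, hp⟩)
  simp only [Equiv.symm_apply_apply] at h1
  exact hχ ⟨p, hp⟩ r h1

end Pool.Agent.AbSub
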