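import Pool.Agent.AbSplit.Units
import Pool.Agent.AbSub.Fg

/-!
# Subgroups of products of unit groups of number fields have the congruence property
-/

set_option autoImplicit false

open NumberField

namespace Pool.Agent.AbSub

/-- Every subgroup `B` of `((𝓞 L)ˣ) ^ m` has the congruence property: for every `N`, the elements
of `B` congruent to `1` modulo a suitable `M` are `N`-th powers of elements of `B`. -/
theorem semis (L : Type) [Field L] [NumberField L] (m : ℕ) (B : Subgroup (Fin m → (𝓞 L)ˣ))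
    (N : ℕ) (hN : N ≠ 0) :
    ∃ M : ℕ, M ≠ 0 ∧ ∀ b ∈ B,
      (∀ i, ∃ r : 𝓞 L, ((b i : (𝓞 L)ˣ) : 𝓞 L) = 1 + M * r) → ∃ c ∈ B, b = c ^ N := by
  have h0 : Group.FG (𝓞 L)ˣ := Pool.Agent.AbSplit.units_fg L
  have hfg : Group.FG (Fin m → (𝓞 L)ˣ) := inferInstance
  obtain ⟨t, ht, hsat⟩ := exists_sat_exp B
  obtain ⟨M, hM, h⟩ := Pool.Agent.AbSplit.units_congruence L (t * N)
    (Nat.mul_pos (Nat.pos_of_ne_zero ht) (Nat.pos_of_ne_zero hN))
  refine ⟨M, hM.ne', fun b hb hi => ?_⟩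
  have h1 : ∀ i, ∃ z : (𝓞 L)ˣ, b i = z ^ (t * N) := by
    intro i
    refine h (b i) ?_
    obtain ⟨r, hr⟩ := hi i
    exact ⟨r, by rw [hr]; ring⟩
  choose z hz using h1
  have h2 : b = z ^ (t * N) := funext fun i => by rw [hz i, Pi.pow_apply]
  refine ⟨z ^ t, hsat z ⟨t * N, Nat.mul_ne_zero ht hN, h2 ▸ hb⟩, ?_⟩
  rw [h2, pow_mul]

end Pool.Agent.AbSub
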