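import Pool.Agent.CSP3.Fox

/-!
# Abelian subgroups of Out(F_n) and the congruence topology: definitions
-/

set_option autoImplicit false

namespace Pool.Agent.AbSub

open Pool.Agent.CSP3 (F A RR JJ DD muR mu mm gg x)

section
variable {Ω : Type*} [Group Ω]

/-- a family of normal subgroups of finite index, directed downwards, with trivial intersection -/
structure Top (K0 : Set (Subgroup Ω)) : Prop where
  normal : ∀ K ∈ K0, K.Normal
  fin : ∀ K ∈ K0, K.FiniteIndex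
  dir : ∀ K ∈ K0, ∀ L ∈ K0, ∃ M ∈ K0, M ≤ K ∧ M ≤ L
  ne : K0.Nonempty
  sep : ∀ x : Ω, (∀ K ∈ K0, x ∈ K) → x = 1

/-- a finitely generated torsion-free commutative subgroup on which the topology is full -/
structure Good (K0 : Set (Subgroup Ω)) (P : Subgroup Ω) : Prop where
  comm : ∀ a ∈ P, ∀ b ∈ P, a * b = b * a
  fg : P.FG
  tf : ∀ a ∈ P, ∀ k : ℕ, k ≠ 0 → a ^ k = 1 → a = 1
  full : ∀ N : ℕ, N ≠ 0 → ∃ K ∈ K0, ∀ a ∈ P, a ∈ K → ∃ b ∈ P, a = b ^ N

end

/-- the M-adic topology of `R` sees all finite index subgroups of `U` -/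
def Full {R : Type} [CommRing R] (U : Subgroup Rˣ) : Prop :=
  ∀ N : ℕ, N ≠ 0 → ∃ M : ℕ, M ≠ 0 ∧ ∀ u ∈ U, (∃ r : R, (u : R) = 1 + M * r) → ∃ c ∈ U, u = c ^ N

/-- the inner automorphisms -/
def Inn (n : ℕ) : Subgroup (A n) := (MulAut.conj : F n →* A n).range

instance Inn_normal (n : ℕ) : (Inn n).Normal := by
  refine ⟨?_⟩
  rintro _ ⟨g, rfl⟩ ψ
  refine ⟨ψ g, ?_⟩
  ext y
  simp [MulAut.conj_apply, MulAut.mul_apply]

abbrev Out (n : ℕ) := A n ⧸ Inn n

/-- the automorphisms which act on `F / K` as an inner automorphism -/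
def congr {n : ℕ} (K : Subgroup (F n)) : Set (A n) :=
  {ψ | ∃ g : F n, ∀ y : F n, ψ y * (g * y * g⁻¹)⁻¹ ∈ K}

/-- the kernels of `Out F → Out (F / K)` -/
def KK (n : ℕ) : Set (Subgroup (Out n)) := {L | ∃ K : Subgroup (F n), K.Characteristic ∧ K.FiniteIndex ∧
  ∀ ψ : A n, (ψ : Out n) ∈ L ↔ ψ ∈ congr K}

/-- the trace forms of degree at most `c` on the group ring -/
def VV (n c : ℕ) : AddSubgroup (RR 0 n →+ ℤ) where
  carrier := {f | (∀ r ∈ JJ 0 n (c + 1), f r = 0) ∧ ∀ r s, f (r * s) = f (s * r)}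
  zero_mem' := ⟨fun _ _ => rfl, fun _ _ => rfl⟩
  add_mem' := by
    rintro f g ⟨h1, h2⟩ ⟨h3, h4⟩
    refine ⟨fun r hr => ?_, fun r s => ?_⟩
    · rw [AddMonoidHom.add_apply, h1 r hr, h3 r hr, add_zero]
    · rw [AddMonoidHom.add_apply, AddMonoidHom.add_apply, h2, h4]
  neg_mem' := by
    rintro f ⟨h1, h2⟩
    refine ⟨fun r hr => ?_, fun r s => ?_⟩
    · rw [AddMonoidHom.neg_apply, h1 r hr, neg_zero]
    · rw [AddMonoidHom.neg_apply, AddMonoidHom.neg_apply, h2]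

/-- the sum of the coefficients of the rotations of a word -/
noncomputable def tr {n : ℕ} (w : List (Fin n)) (g : F n) : ℤ :=
  ∑ j ∈ Finset.range w.length, mu 0 (w.rotate j) g

/-- product of syllables -/
def syl {n : ℕ} (l : List (Fin n × ℤ)) : F n := (l.map fun p => x p.1 ^ p.2).prod

end Pool.Agent.AbSub
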