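import Mathlib
import Pool.Agent.AbSub.Defs

/-!
# AbSub/Unip: the `M`-adic topology on groups of unipotent units
-/

set_option autoImplicit false

namespace Pool.Agent.AbSub

namespace UnipAux

/-- in a finite module over `ℤ` the torsion is killed by one number -/
theorem exists_kill (V : Type) [AddCommGroup V] [Module.Finite ℤ V] :
    ∃ t : ℕ, t ≠ 0 ∧ ∀ v : V, ∀ n : ℕ, n ≠ 0 → n • v = 0 → t • v = 0 := by
  have : Module.Finite ℤ (Submodule.torsion ℤ V) := inferInstance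
  have hfin : Finite (Submodule.torsion ℤ V) :=
    Module.finite_of_fg_torsion _ (Submodule.torsion_isTorsion)
  refine ⟨Nat.card (Submodule.torsion ℤ V), Nat.card_pos.ne', fun v n hn hv => ?_⟩
  have h1 : v ∈ Submodule.torsion ℤ V := by
    rw [Submodule.mem_torsion_iff]
    refine ⟨⟨(n : ℤ), mem_nonZeroDivisors_of_ne_zero (by exact_mod_cast hn)⟩, ?_⟩
    show (n : ℤ) • v = 0
    rw [natCast_zsmul]
    exact hv
  have h2 := card_nsmul_eq_zero' (x := (⟨v, h1⟩ : Submodule.torsion ℤ V))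
  exact congrArg Subtype.val h2

/-- Artin-Rees over `ℤ` -/
theorem exists_mod (W : Type) [AddCommGroup W] [Module.Finite ℤ W] (A : AddSubgroup W) (N : ℕ) (hN : N ≠ 0) :
    ∃ t : ℕ, t ≠ 0 ∧ ∀ w : W, t • w ∈ A → ∃ a ∈ A, t • w = N • a := by
  set B : Submodule ℤ W := Submodule.map (LinearMap.lsmul ℤ W (N : ℤ)) (AddSubgroup.toIntSubmodule A) with hB
  obtain ⟨t, ht, h⟩ := exists_kill (W ⧸ B)
  refine ⟨t, ht, fun w hw => ?_⟩
  have h1 : (N * t) • (B.mkQ w) = 0 := by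
    rw [← map_nsmul, Submodule.mkQ_apply, Submodule.Quotient.mk_eq_zero, hB]
    refine ⟨t • w, hw, ?_⟩
    show (N : ℤ) • (t • w) = (N * t) • w
    rw [natCast_zsmul, mul_smul]
  have h2 := h (B.mkQ w) (N * t) (Nat.mul_ne_zero hN ht) h1
  rw [← map_nsmul, Submodule.mkQ_apply, Submodule.Quotient.mk_eq_zero, hB] at h2
  obtain ⟨a, ha, h3⟩ := h2
  refine ⟨a, ha, ?_⟩
  rw [← h3]
  show (N : ℤ) • a = N • a
  exact natCast_zsmul a N

theorem exists_exp {R : Type} [CommRing R] [Module.Finite ℤ R] (M : ℕ) (hM : M ≠ 0) :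
    ∃ e : ℕ, e ≠ 0 ∧ ∀ c : Rˣ, ∃ r : R, ((c ^ e : Rˣ) : R) = 1 + M * r := by
  let I : Ideal R := Ideal.span {(M : R)}
  have : Module.Finite ℤ (R ⧸ I) := Module.Finite.of_surjective ((Ideal.Quotient.mkₐ ℤ I).toLinearMap) (Ideal.Quotient.mkₐ_surjective ℤ I)
  have : Finite (R ⧸ I) := by
    apply Module.finite_of_fg_torsion
    intro x
    refine ⟨⟨(M : ℤ), mem_nonZeroDivisors_of_ne_zero (by exact_mod_cast hM)⟩, ?_⟩
    show (M : ℤ) • x = 0
    obtain ⟨y, rfl⟩ := Ideal.Quotient.mk_surjective x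
    rw [← map_zsmul, Ideal.Quotient.eq_zero_iff_mem, zsmul_eq_mul, Int.cast_natCast]
    exact Ideal.mul_mem_right _ _ (Ideal.mem_span_singleton_self _)
  refine ⟨Nat.card (R ⧸ I)ˣ, Nat.card_pos.ne', fun c => ?_⟩
  have h1 : (Units.map (Ideal.Quotient.mk I).toMonoidHom c) ^ Nat.card (R ⧸ I)ˣ = 1 := pow_card_eq_one'
  have h2 := congrArg Units.val h1
  rw [← map_pow] at h2
  have h3 : Ideal.Quotient.mk I ((c ^ Nat.card (R ⧸ I)ˣ : Rˣ) : R) = Ideal.Quotient.mk I 1 := by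
    rw [map_one]
    exact h2
  rw [Ideal.Quotient.eq, Ideal.mem_span_singleton] at h3
  obtain ⟨r, hr⟩ := h3
  exact ⟨r, by rw [← hr]; ring⟩

end UnipAux

open UnipAux

theorem ext_full {R : Type} [CommRing R] [Module.Free ℤ R] [Module.Finite ℤ R]
    (U U' : Subgroup Rˣ) (hle : U' ≤ U) (h1 : Full U')
    (h2 : ∀ N : ℕ, N ≠ 0 → ∃ M : ℕ, M ≠ 0 ∧ ∀ u ∈ U, (∃ r : R, (u : R) = 1 + M * r) →
      ∃ c ∈ U, ∃ u' ∈ U', u = c ^ N * u') : Full U := by
  intro N hN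
  obtain ⟨M1, hM1, h3⟩ := h1 N hN
  obtain ⟨e, he, h4⟩ := exists_exp (R := R) M1 hM1
  obtain ⟨M2, hM2, h5⟩ := h2 (N * e) (Nat.mul_ne_zero hN he)
  refine ⟨M1 * M2, Nat.mul_ne_zero hM1 hM2, fun u hu hr => ?_⟩
  obtain ⟨r, hr⟩ := hr
  obtain ⟨c, hc, u', hu', huc⟩ := h5 u hu ⟨M1 * r, by rw [hr]; push_cast; ring⟩
  obtain ⟨s, hs⟩ := h4 (c ^ N)
  obtain ⟨s', hs'⟩ := h4 ((c ^ N)⁻¹)
  have h6 : ∃ r : R, (u' : R) = 1 + M1 * r := by
    have h7 : u' = ((c ^ N)⁻¹) ^ e * u := by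
      rw [huc, pow_mul, ← mul_assoc, inv_pow, inv_mul_cancel, one_mul]
    refine ⟨s' + M2 * r + s' * (M1 * M2 * r), ?_⟩
    rw [h7, Units.val_mul, hs', hr]
    push_cast
    ring
  obtain ⟨d, hd, hd'⟩ := h3 u' hu' h6
  refine ⟨c ^ e * d, U.mul_mem (U.pow_mem hc e) (hle hd), ?_⟩
  rw [huc, hd', mul_pow, ← pow_mul, mul_comm e N]

namespace UnipAux

variable {R : Type} [CommRing R]

/-- the subgroup of the units congruent to one -/
def con (I : Ideal R) : Subgroup Rˣ := (Units.map (Ideal.Quotient.mk I).toMonoidHom).ker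

theorem mem_con {I : Ideal R} {u : Rˣ} : u ∈ con I ↔ (u : R) - 1 ∈ I := by
  unfold con
  rw [MonoidHom.mem_ker, Units.ext_iff, ← Ideal.Quotient.eq]
  rfl

/-- the differences `u - 1` modulo `J ^ (k + 1)` -/
def dif (J : Ideal R) (k : ℕ) (hk : 1 ≤ k) (U : Subgroup Rˣ) (hU : ∀ u ∈ U, (u : R) - 1 ∈ J ^ k) :
    AddSubgroup (R ⧸ J ^ (k + 1)) where
  carrier := {a | ∃ u ∈ U, a = Ideal.Quotient.mk _ ((u : R) - 1)}
  zero_mem' := ⟨1, U.one_mem, by simp⟩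
  add_mem' := by
    rintro _ _ ⟨u, hu, rfl⟩ ⟨v, hv, rfl⟩
    refine ⟨u * v, U.mul_mem hu hv, ?_⟩
    rw [← map_add, Ideal.Quotient.eq]
    have h1 : ((u : R) - 1) * ((v : R) - 1) ∈ J ^ (k + 1) := by
      have h2 := Ideal.mul_mem_mul (hU u hu) (hU v hv)
      rw [← pow_add] at h2
      exact Ideal.pow_le_pow_right (by omega) h2
    have h3 : ((u : R) - 1 + ((v : R) - 1)) - (((u * v : Rˣ) : R) - 1) = -(((u : R) - 1) * ((v : R) - 1)) := by
      push_cast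
      ring
    rw [h3]
    exact neg_mem h1
  neg_mem' := by
    rintro _ ⟨u, hu, rfl⟩
    refine ⟨u⁻¹, U.inv_mem hu, ?_⟩
    rw [← map_neg, Ideal.Quotient.eq]
    have h1 : ((u : R) - 1) * (((u⁻¹ : Rˣ) : R) - 1) ∈ J ^ (k + 1) := by
      have h2 := Ideal.mul_mem_mul (hU u hu) (hU u⁻¹ (U.inv_mem hu))
      rw [← pow_add] at h2
      exact Ideal.pow_le_pow_right (by omega) h2
    have h3 : -((u : R) - 1) - (((u⁻¹ : Rˣ) : R) - 1) = ((u : R) - 1) * (((u⁻¹ : Rˣ) : R) - 1) := by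
      have h4 : (u : R) * ((u⁻¹ : Rˣ) : R) = 1 := Units.mul_inv u
      linear_combination -h4
    rw [h3]
    exact h1

theorem pow_dif (J : Ideal R) (k : ℕ) (hk : 1 ≤ k) (c : Rˣ) (hc : (c : R) - 1 ∈ J ^ k) (N : ℕ) :
    Ideal.Quotient.mk (J ^ (k + 1)) (((c ^ N : Rˣ) : R) - 1) = N • Ideal.Quotient.mk (J ^ (k + 1)) ((c : R) - 1) := by
  induction N with
  | zero => simp
  | succ N ih =>
    have h0 : ((c ^ N : Rˣ) : R) - 1 ∈ J ^ k := by
      have : c ∈ con (J ^ k) := mem_con.mpr hc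
      exact mem_con.mp ((con (J ^ k)).pow_mem this N)
    have h1 : (((c ^ N : Rˣ) : R) - 1) * ((c : R) - 1) ∈ J ^ (k + 1) := by
      have h2 := Ideal.mul_mem_mul h0 hc
      rw [← pow_add] at h2
      exact Ideal.pow_le_pow_right (by omega) h2
    rw [succ_nsmul, ← ih, ← map_add, Ideal.Quotient.eq]
    have h3 : (((c ^ (N + 1) : Rˣ) : R) - 1) - ((((c ^ N : Rˣ) : R) - 1) + ((c : R) - 1)) = (((c ^ N : Rˣ) : R) - 1) * ((c : R) - 1) := by
      rw [pow_succ]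
      push_cast
      ring
    rw [h3]
    exact h1

theorem unip_aux [Module.Free ℤ R] [Module.Finite ℤ R] (J : Ideal R) (s : ℕ) (hs : J ^ s = ⊥) :
    ∀ m k : ℕ, 1 ≤ k → s ≤ k + m → ∀ U : Subgroup Rˣ, (∀ u ∈ U, (u : R) - 1 ∈ J ^ k) → Full U := by
  intro m
  induction m with
  | zero =>
    intro k _ hk U hU N hN
    refine ⟨1, one_ne_zero, fun u hu _ => ⟨1, U.one_mem, ?_⟩⟩
    have h1 : (u : R) - 1 ∈ J ^ s := Ideal.pow_le_pow_right (by omega) (hU u hu)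
    rw [hs, Ideal.mem_bot, sub_eq_zero] at h1
    rw [one_pow]
    exact Units.ext h1
  | succ m ih =>
    intro k hk1 hk U hU
    refine ext_full U (U ⊓ con (J ^ (k + 1))) inf_le_left (ih (k + 1) (by omega) (by omega) _ fun u hu => mem_con.mp hu.2) ?_
    intro N hN
    have : Module.Finite ℤ (R ⧸ J ^ (k + 1)) :=
      Module.Finite.of_surjective ((Ideal.Quotient.mkₐ ℤ (J ^ (k + 1))).toLinearMap) (Ideal.Quotient.mkₐ_surjective ℤ _)
    obtain ⟨t, ht, h⟩ := exists_mod (R ⧸ J ^ (k + 1)) (dif J k hk1 U hU) N hN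
    refine ⟨t, ht, fun u hu hr => ?_⟩
    obtain ⟨r, hr⟩ := hr
    have h1 : Ideal.Quotient.mk (J ^ (k + 1)) ((u : R) - 1) = t • Ideal.Quotient.mk (J ^ (k + 1)) r := by
      rw [← map_nsmul, hr]
      congr 1
      rw [nsmul_eq_mul]
      ring
    obtain ⟨a, ⟨c, hc, rfl⟩, h2⟩ := h (Ideal.Quotient.mk _ r) (by rw [← h1]; exact ⟨u, hu, rfl⟩)
    refine ⟨c, hc, (c ^ N)⁻¹ * u, ⟨U.mul_mem (U.inv_mem (U.pow_mem hc N)) hu, ?_⟩, by rw [mul_inv_cancel_left]⟩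
    rw [← h1, ← pow_dif J k hk1 c (hU c hc) N, Ideal.Quotient.eq] at h2
    have h3 : (((c ^ N)⁻¹ * u : Rˣ) : R) - 1 = (((c ^ N)⁻¹ : Rˣ) : R) * (((u : R) - 1) - (((c ^ N : Rˣ) : R) - 1)) := by
      have h4 : (((c ^ N)⁻¹ : Rˣ) : R) * ((c ^ N : Rˣ) : R) = 1 := Units.inv_mul (c ^ N)
      rw [Units.val_mul]
      linear_combination h4
    show (c ^ N)⁻¹ * u ∈ con (J ^ (k + 1))
    rw [mem_con, h3]
    exact Ideal.mul_mem_left _ _ h2

end UnipAux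

theorem unip {R : Type} [CommRing R] [Module.Free ℤ R] [Module.Finite ℤ R]
    (U : Subgroup Rˣ) (hfg : U.FG) (hU : ∀ u ∈ U, IsNilpotent ((u : R) - 1)) : Full U := by
  have : IsNoetherianRing R := IsNoetherianRing.of_finite ℤ R
  obtain ⟨s, hs⟩ := IsNoetherianRing.isNilpotent_nilradical R
  exact unip_aux (nilradical R) s hs s 1 le_rfl (by omega) U fun u hu => by
    rw [pow_one]
    exact mem_nilradical.mpr (hU u hu)

end Pool.Agent.AbSub
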