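import Pool.Agent.AbSub.Defs
import Pool.Agent.AbSub.Fg
import Pool.Agent.AbSub.Homs
import Pool.Agent.AbSub.Semis
import Pool.Agent.AbSub.Unip

/-!
# Chevalley's theorem for commutative rings which are finite and free over the integers
-/

set_option autoImplicit false

open NumberField

namespace Pool.Agent.AbSub

/-- a unipotent unit of finite order is trivial -/
theorem unip_tf {R : Type} [CommRing R] [Module.Free ℤ R] {a : Rˣ}
    (h : IsNilpotent ((a : R) - 1)) {k : ℕ} (hk : k ≠ 0) (ha : a ^ k = 1) : a = 1 := by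
  set n : R := (a : R) - 1 with hn
  have h1 : n * ∑ i ∈ Finset.range k, (a : R) ^ i = 0 := by
    rw [hn, mul_geom_sum, ← Units.val_pow_eq_pow_val, ha, Units.val_one, sub_self]
  obtain ⟨s, hs⟩ : n ∣ ∑ i ∈ Finset.range k, ((a : R) ^ i - 1) :=
    Finset.dvd_sum fun i _ => sub_one_dvd_pow_sub_one _ _
  have h2 : ∑ i ∈ Finset.range k, (a : R) ^ i = k + n * s := by
    rw [← hs, Finset.sum_sub_distrib]
    simp
  rw [h2, mul_add] at h1
  have h3 : n * (k : R) = n * (-(n * s)) := by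
    rw [mul_neg]
    exact eq_neg_of_add_eq_zero_left h1
  have h4 : ∀ j : ℕ, n * (k : R) ^ j = n * (-(n * s)) ^ j := by
    intro j
    induction j with
    | zero => simp
    | succ j ih => rw [pow_succ, ← mul_assoc, ih, mul_right_comm, h3, mul_right_comm, pow_succ, mul_assoc]
  obtain ⟨j, hj⟩ := h
  have h5 : n * (k : R) ^ j = 0 := by
    rw [h4, neg_pow, mul_pow, hj]
    ring
  have h6 : ((k : ℤ) ^ j) • n = 0 := by
    rw [zsmul_eq_mul, mul_comm]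
    push_cast
    exact h5
  have h7 : n = 0 := by
    rcases smul_eq_zero.mp h6 with h | h
    · exact absurd h (pow_ne_zero _ (by exact_mod_cast hk))
    · exact h
  apply Units.ext
  rw [Units.val_one]
  exact sub_eq_zero.mp h7

theorem chev (R : Type) [CommRing R] [Module.Free ℤ R] [Module.Finite ℤ R]
    (B : Subgroup Rˣ) (hfg : B.FG) :
    ∃ B1 ≤ B, (B1.subgroupOf B).FiniteIndex ∧ (∀ a ∈ B1, ∀ k : ℕ, k ≠ 0 → a ^ k = 1 → a = 1) ∧
      Full B1 := by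
  obtain ⟨L, _, _, m, χ, hχ⟩ := exists_homs R
  let Φ : Rˣ →* (Fin m → (𝓞 L)ˣ) := MonoidHom.pi fun i => Units.map (χ i : R →* 𝓞 L)
  have hΦ : ∀ (a : Rˣ) (i : Fin m), ((Φ a i : (𝓞 L)ˣ) : 𝓞 L) = χ i (a : R) := fun a i => rfl
  have hker : ∀ a : Rˣ, Φ a = 1 → IsNilpotent ((a : R) - 1) := by
    intro a ha
    apply hχ
    intro i
    have h1 := hΦ a i
    rw [ha] at h1
    rw [map_sub, map_one, ← h1]
    simp
  set U : Subgroup Rˣ := B ⊓ Φ.ker with hU
  have hUfg : U.FG := fg_le hfg inf_le_left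
  have hDfg : (B.map Φ).FG := by
    rw [Subgroup.fg_iff_submonoid_fg] at hfg ⊢
    exact hfg.map Φ
  have hDg : Group.FG (B.map Φ) := (Group.fg_iff_subgroup_fg _).mpr hDfg
  obtain ⟨t, ht, htor⟩ := exists_torsion_exp (B.map Φ)
  have htor' : ∀ c ∈ B, ∀ k : ℕ, k ≠ 0 → Φ c ^ k = 1 → Φ c ^ t = 1 := by
    intro c hc k hk h
    have h1 := htor ⟨Φ c, Subgroup.mem_map_of_mem Φ hc⟩ ⟨k, hk, Subtype.ext h⟩
    exact congrArg Subtype.val h1
  set B1 : Subgroup Rˣ := (B.map (powMonoidHom t)) ⊔ U with hB1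
  have hmem : ∀ a, a ∈ B1 ↔ ∃ c ∈ B, ∃ u ∈ U, a = c ^ t * u := by
    intro a
    rw [hB1, Subgroup.mem_sup]
    constructor
    · rintro ⟨y, ⟨c, hc, rfl⟩, z, hz, rfl⟩
      exact ⟨c, hc, z, hz, rfl⟩
    · rintro ⟨c, hc, u, hu, rfl⟩
      exact ⟨c ^ t, ⟨c, hc, rfl⟩, u, hu, rfl⟩
  have hB1B : B1 ≤ B := by
    intro a ha
    obtain ⟨c, hc, u, hu, rfl⟩ := (hmem a).mp ha
    exact B.mul_mem (B.pow_mem hc t) hu.1
  have hUB1 : U ≤ B1 := le_sup_right
  -- torsion-free modulo `U`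
  have htf1 : ∀ a ∈ B1, ∀ k : ℕ, k ≠ 0 → Φ a ^ k = 1 → Φ a = 1 := by
    intro a ha k hk h
    obtain ⟨c, hc, u, hu, rfl⟩ := (hmem a).mp ha
    have hu1 : Φ u = 1 := hu.2
    rw [map_mul, map_pow, hu1, mul_one] at h ⊢
    rw [← pow_mul] at h
    exact htor' c hc (t * k) (Nat.mul_ne_zero ht hk) h
  refine ⟨B1, hB1B, ?_, ?_, ?_⟩
  · refine finiteIndex_of_pow_le hfg t ht fun y hy => ?_
    exact (hmem _).mpr ⟨y, hy, 1, U.one_mem, by rw [mul_one]⟩
  · intro a ha k hk h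
    have h1 : Φ a = 1 := htf1 a ha k hk (by rw [← map_pow, h, map_one])
    exact unip_tf (hker a h1) hk h
  · refine ext_full B1 U hUB1 (unip U hUfg fun u hu => hker u hu.2) fun N hN => ?_
    obtain ⟨M, hM, h⟩ := semis L m (B1.map Φ) N hN
    refine ⟨M, hM, fun u hu hr => ?_⟩
    obtain ⟨r, hr⟩ := hr
    obtain ⟨c', ⟨c, hc, rfl⟩, h1⟩ := h (Φ u) (Subgroup.mem_map_of_mem Φ hu) fun i =>
      ⟨χ i r, by rw [hΦ, hr, map_add, map_one, map_mul, map_natCast]⟩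
    refine ⟨c, hc, (c ^ N)⁻¹ * u, ⟨?_, ?_⟩, by rw [mul_inv_cancel_left]⟩
    · exact hB1B (B1.mul_mem (B1.inv_mem (B1.pow_mem hc N)) hu)
    · show Φ _ = 1
      rw [map_mul, map_inv, map_pow, h1, inv_mul_cancel]

end Pool.Agent.AbSub
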