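import Pool.Agent.AbSub.Traces

/-! # An automorphism of the free group that preserves all traces is inner -/

set_option autoImplicit false

namespace Pool.Agent.AbSub

open Pool.Agent.CSP3 (F A RR JJ DD muR mu mm gg x mu_one)

variable {n : ℕ}

theorem syl_nil : syl ([] : List (Fin n × ℤ)) = 1 := rfl

theorem syl_cons (p : Fin n × ℤ) (l : List (Fin n × ℤ)) : syl (p :: l) = x p.1 ^ p.2 * syl l := rfl

theorem syl_append (l l' : List (Fin n × ℤ)) : syl (l ++ l') = syl l * syl l' := by
  simp [syl]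

/-- the inverse word -/
def sinv (l : List (Fin n × ℤ)) : List (Fin n × ℤ) := (l.map fun p => (p.1, -p.2)).reverse

theorem syl_sinv (l : List (Fin n × ℤ)) : syl (sinv l) = (syl l)⁻¹ := by
  induction l with
  | nil => simp [sinv, syl]
  | cons p l ih =>
    have h1 : sinv (p :: l) = sinv l ++ [(p.1, -p.2)] := by simp [sinv]
    rw [h1, syl_append, ih, syl_cons p l, mul_inv_rev, syl_cons, syl_nil, mul_one, zpow_neg]

theorem map_fst_sinv (l : List (Fin n × ℤ)) : (sinv l).map Prod.fst = (l.map Prod.fst).reverse := by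
  simp [sinv, Function.comp_def]

/-- every element is a product of syllables -/
theorem exists_syl (g : F n) : ∃ l, syl l = g := by
  induction g using FreeGroup.induction_on with
  | C1 => exact ⟨[], rfl⟩
  | of i => exact ⟨[(i, 1)], by simp [syl]⟩
  | inv_of i _ => exact ⟨[(i, -1)], by simp [syl]⟩
  | mul a b ha hb =>
    obtain ⟨la, rfl⟩ := ha
    obtain ⟨lb, rfl⟩ := hb
    exact ⟨la ++ lb, syl_append _ _⟩

/-- neighbours are different -/
theorem isChain_of_splits {α : Type} (w : List α)
    (h : ∀ l₁ a b l₂, w = l₁ ++ a :: b :: l₂ → a ≠ b) : w.IsChain (· ≠ ·) := by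
  induction w with
  | nil => simp
  | cons a w ih =>
    cases w with
    | nil => simp
    | cons b w =>
      rw [List.isChain_cons_cons]
      refine ⟨h [] a b w rfl, ih fun l₁ c d l₂ e => h (a :: l₁) c d l₂ (by rw [e]; rfl)⟩

/-- a shortest product of syllables: neighbours are different, exponents are nonzero -/
theorem red_of_min (l : List (Fin n × ℤ)) (h : ∀ l', syl l' = syl l → l.length ≤ l'.length) :
    (l.map Prod.fst).IsChain (· ≠ ·) ∧ ∀ p ∈ l, p.2 ≠ 0 := by
  constructor
  · refine isChain_of_splits _ fun w₁ a b w₂ e hab => ?_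
    rw [List.map_eq_append_iff] at e
    obtain ⟨l₁, l₂, rfl, h1, h2⟩ := e
    rw [List.map_eq_cons_iff] at h2
    obtain ⟨p, l₃, rfl, hp, h3⟩ := h2
    rw [List.map_eq_cons_iff] at h3
    obtain ⟨q, l₄, rfl, hq, h4⟩ := h3
    have h5 := h (l₁ ++ (p.1, p.2 + q.2) :: l₄) (by
      rw [syl_append, syl_append, syl_cons, syl_cons, syl_cons, hp, hq, hab, zpow_add, mul_assoc])
    simp at h5
  · intro p hp h0
    obtain ⟨l₁, l₂, rfl⟩ := List.append_of_mem hp
    have h5 := h (l₁ ++ l₂) (by
      rw [syl_append, syl_append, syl_cons, h0, zpow_zero, one_mul])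
    simp at h5

/-- all rotations have different neighbours -/
def Cy (w : List (Fin n)) : Prop := ∀ j, (w.rotate j).IsChain (· ≠ ·)

theorem Cy_single (a : Fin n) : Cy [a] := by
  intro j
  have h1 : ([a].rotate j).length = 1 := by simp
  obtain ⟨b, hb⟩ := List.length_eq_one_iff.1 h1
  rw [hb]
  simp

theorem Cy_of_chain (w : List (Fin n)) (hw : w.IsChain (· ≠ ·))
    (h : ∀ a ∈ w.getLast?, ∀ b ∈ w.head?, a ≠ b) : Cy w := by
  intro j
  rw [List.rotate_eq_drop_append_take_mod, List.isChain_append]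
  refine ⟨hw.drop _, hw.take _, fun a ha b hb => ?_⟩
  have h1 : a ∈ w.getLast? := by
    rw [List.getLast?_drop] at ha
    split_ifs at ha with h2
    · simp at ha
    · exact ha
  have h2 : b ∈ w.head? := by
    rw [List.head?_take] at hb
    split_ifs at hb with h2
    · simp at hb
    · exact hb
  exact h a h1 b h2

theorem tr_syl_zero (l : List (Fin n × ℤ)) (w : List (Fin n)) (hw : Cy w)
    (hl : l.length < w.length) : tr w (syl l) = 0 := by
  rw [tr]
  refine Finset.sum_eq_zero fun j _ => ?_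
  rw [mu_syl l _ (hw j) (by rw [List.length_rotate]; exact hl.le), if_neg]
  intro e
  have := congrArg List.length e
  rw [List.length_rotate, List.length_map] at this
  omega

theorem tr_syl_ne (l : List (Fin n × ℤ)) (hl : l ≠ []) (hw : Cy (l.map Prod.fst))
    (h0 : ∀ p ∈ l, p.2 ≠ 0) : tr (l.map Prod.fst) (syl l) ≠ 0 := by
  classical
  set w := l.map Prod.fst with hwd
  have hP : (l.map Prod.snd).prod ≠ 0 := by
    intro h
    rw [List.prod_eq_zero_iff, List.mem_map] at h
    obtain ⟨p, hp, h1⟩ := h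
    exact h0 p hp h1
  have h1 : tr w (syl l) = ∑ j ∈ Finset.range w.length,
      if w.rotate j = w then (l.map Prod.snd).prod else 0 := by
    rw [tr]
    refine Finset.sum_congr rfl fun j _ => ?_
    rw [mu_syl l _ (hw j) (by rw [List.length_rotate, hwd, List.length_map])]
  rw [h1, ← Finset.sum_filter, Finset.sum_const, nsmul_eq_mul]
  refine mul_ne_zero ?_ hP
  rw [Nat.cast_ne_zero, Finset.card_ne_zero]
  refine ⟨0, Finset.mem_filter.2 ⟨?_, List.rotate_zero _⟩⟩
  rw [Finset.mem_range, hwd, List.length_map]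
  exact List.length_pos_iff.2 hl

theorem tr_conj (w : List (Fin n)) (u g : F n) : tr w (u * g * u⁻¹) = tr w g := by
  rw [tr_mul_comm, inv_mul_cancel_left]

/-- an element whose traces of length at least `2` vanish is conjugate to a power of a generator -/
theorem conj_of_tr (g : F n) (h : ∀ w : List (Fin n), Cy w → 2 ≤ w.length → tr w g = 0) :
    g = 1 ∨ ∃ (u : F n) (i : Fin n) (e : ℤ), g = u * x i ^ e * u⁻¹ := by
  classical
  have hex : ∃ N : ℕ, ∃ (u : F n) (l : List (Fin n × ℤ)), l.length = N ∧ g = u * syl l * u⁻¹ := by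
    obtain ⟨l, hl⟩ := exists_syl g
    exact ⟨_, 1, l, rfl, by rw [hl]; simp⟩
  obtain ⟨u, l, hlN, hg⟩ := Nat.find_spec hex
  have hmin : ∀ (u' : F n) (l' : List (Fin n × ℤ)), g = u' * syl l' * u'⁻¹ → l.length ≤ l'.length := by
    intro u' l' h1
    rw [hlN]
    exact Nat.find_min' hex ⟨u', l', rfl, h1⟩
  obtain ⟨hch, h0⟩ := red_of_min l fun l' h1 => hmin u l' (by rw [h1]; exact hg)
  rcases lt_or_ge l.length 2 with h2 | h2
  · interval_cases h3 : l.length
    · left
      rw [hg, List.length_eq_zero_iff.1 h3, syl_nil, mul_one, mul_inv_cancel]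
    · right
      obtain ⟨p, rfl⟩ := List.length_eq_one_iff.1 h3
      exact ⟨u, p.1, p.2, by rw [hg, syl_cons, syl_nil, mul_one]⟩
  · exfalso
    have hcy : Cy (l.map Prod.fst) := by
      refine Cy_of_chain _ hch fun a ha b hb hab => ?_
      obtain ⟨p, l₁, rfl⟩ : ∃ p l₁, l = p :: l₁ := by
        cases l with
        | nil => simp at h2
        | cons p l₁ => exact ⟨p, l₁, rfl⟩
      have hl1 : l₁ ≠ [] := by
        rintro rfl
        simp at h2
      obtain ⟨l₂, q, rfl⟩ : ∃ l₂ q, l₁ = l₂ ++ [q] := by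
        rcases List.eq_nil_or_concat' l₁ with h3 | ⟨l₂, q, h3⟩
        · exact absurd h3 hl1
        · exact ⟨l₂, q, h3⟩
      have hpq : p.1 = q.1 := by
        simp only [List.map_cons, List.map_append, List.map_nil, List.head?_cons,
          Option.mem_some_iff] at hb
        rw [List.map_cons, List.map_append, List.map_cons, List.map_nil, ← List.cons_append,
          List.getLast?_append] at ha
        simp at ha
        rw [hb, ha, hab]
      have h4 := hmin (u * x q.1 ^ (-q.2)) ((p.1, q.2 + p.2) :: l₂) (by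
        rw [hg, syl_cons, syl_append, syl_cons, syl_nil, syl_cons, mul_one, hpq, zpow_add]
        group)
      simp at h4
    refine tr_syl_ne l ?_ hcy h0 ?_
    · rintro rfl
      simp at h2
    · rw [← tr_conj _ u, ← hg]
      exact h _ hcy (by rw [List.length_map]; exact h2)

theorem tr_x_zero (i : Fin n) (w : List (Fin n)) (hw : Cy w) (h2 : 2 ≤ w.length) :
    tr w (x i) = 0 := by
  have h := tr_syl_zero [(i, 1)] w hw (by rw [List.length_singleton]; exact h2)
  rwa [syl_cons, syl_nil, mul_one, zpow_one] at h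

theorem tr_single (i j : Fin n) (e : ℤ) : tr [i] (x j ^ e) = if i = j then e else 0 := by
  have h1 : x j ^ e = syl [(j, e)] := by rw [syl_cons, syl_nil, mul_one]
  rw [h1, tr, List.length_singleton, Finset.sum_range_one, List.rotate_zero,
    mu_syl _ _ (by simp) (by simp)]
  simp

/-- the image of a generator is conjugate to it -/
theorem conj_gen (ψ : A n) (h : ∀ w : List (Fin n), w ≠ [] → ∀ g : F n, tr w (ψ g) = tr w g)
    (i : Fin n) : ∃ u : F n, ψ (x i) = u * x i * u⁻¹ := by
  have h1 : tr [i] (ψ (x i)) = 1 := by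
    rw [h [i] (by simp)]
    have := tr_single i i 1
    rwa [zpow_one, if_pos rfl] at this
  rcases conj_of_tr (ψ (x i)) fun w hw h2 => by
    rw [h w (by rintro rfl; simp at h2)]
    exact tr_x_zero i w hw h2 with h2 | ⟨u, j, e, h2⟩
  · exfalso
    rw [h2] at h1
    have h3 := tr_single i i 0
    rw [zpow_zero, if_pos rfl, h1] at h3
    exact one_ne_zero h3
  · rw [h2, tr_conj, tr_single] at h1
    split_ifs at h1 with hij
    · subst hij
      exact ⟨u, by rw [h2, h1, zpow_one]⟩
    · exact absurd h1 (by norm_num)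

/-- the second generator -/
theorem conj_pow (ψ : A n) (h : ∀ w : List (Fin n), w ≠ [] → ∀ g : F n, tr w (ψ g) = tr w g)
    (a : Fin n) (ha : ψ (x a) = x a) (i : Fin n) :
    ∃ m : ℤ, ψ (x i) = x a ^ m * x i * (x a ^ m)⁻¹ := by
  classical
  by_cases hia : i = a
  · subst hia
    exact ⟨0, by rw [ha]; simp⟩
  have hex : ∃ N : ℕ, ∃ (m : ℤ) (l : List (Fin n × ℤ)), l.length = N ∧
      ψ (x i) = x a ^ m * (syl l * x i * (syl l)⁻¹) * (x a ^ m)⁻¹ := by
    obtain ⟨u, hu⟩ := conj_gen ψ h i
    obtain ⟨l, hl⟩ := exists_syl u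
    exact ⟨_, 0, l, rfl, by rw [hl, hu]; simp⟩
  obtain ⟨m, l, hlN, hg⟩ := Nat.find_spec hex
  have hmin : ∀ (m' : ℤ) (l' : List (Fin n × ℤ)),
      ψ (x i) = x a ^ m' * (syl l' * x i * (syl l')⁻¹) * (x a ^ m')⁻¹ →
        l.length ≤ l'.length := by
    intro m' l' h1
    rw [hlN]
    exact Nat.find_min' hex ⟨m', l', rfl, h1⟩
  obtain ⟨hch, h0⟩ := red_of_min l fun l' h1 => hmin m l' (by rw [h1]; exact hg)
  by_cases hl : l = []
  · refine ⟨m, ?_⟩
    rw [hg, hl, syl_nil]
    simp
  exfalso
  have hhead : ∀ p ∈ l.head?, p.1 ≠ a := by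
    intro p hp hpa
    obtain ⟨l₁, rfl⟩ : ∃ l₁, l = p :: l₁ := by
      cases l with
      | nil => simp at hp
      | cons q l₁ =>
        simp only [List.head?_cons, Option.mem_some_iff] at hp
        exact ⟨l₁, by rw [hp]⟩
    have h4 := hmin (m + p.2) l₁ (by
      rw [hg, syl_cons, hpa, zpow_add]
      group)
    simp at h4
  have hlast : ∀ p ∈ l.getLast?, p.1 ≠ i := by
    intro p hp hpi
    obtain ⟨l₁, rfl⟩ : ∃ l₁, l = l₁ ++ [p] := by
      rcases List.eq_nil_or_concat' l with h3 | ⟨l₂, q, h3⟩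
      · exact absurd h3 hl
      · rw [h3, List.getLast?_append] at hp
        simp at hp
        exact ⟨l₂, by rw [h3, hp]⟩
    have h4 := hmin m l₁ (by
      rw [hg, syl_append, syl_cons, syl_nil, hpi]
      group)
    simp at h4
  -- the long word
  set L : List (Fin n × ℤ) := (a, 1) :: (l ++ (i, 1) :: sinv l) with hL
  have hsyl : syl L = x a * (syl l * x i * (syl l)⁻¹) := by
    rw [hL, syl_cons, syl_append, syl_cons, syl_sinv, zpow_one, zpow_one]
    group
  have hLfst : L.map Prod.fst = a :: (l.map Prod.fst ++ i :: (l.map Prod.fst).reverse) := by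
    rw [hL, List.map_cons, List.map_append, List.map_cons, map_fst_sinv]
  have hLch : (L.map Prod.fst).IsChain (· ≠ ·) := by
    rw [hLfst, List.isChain_cons, List.isChain_append, List.isChain_cons, List.isChain_reverse]
    have hh : ∀ b ∈ (l.map Prod.fst).head?, b ≠ a := by
      intro b hb
      rw [List.head?_map, Option.mem_map] at hb
      obtain ⟨p, hp, rfl⟩ := hb
      exact hhead p hp
    have hl' : ∀ b ∈ (l.map Prod.fst).getLast?, b ≠ i := by
      intro b hb
      rw [List.getLast?_map, Option.mem_map] at hb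
      obtain ⟨p, hp, rfl⟩ := hb
      exact hlast p hp
    refine ⟨fun b hb => ?_, hch, ⟨fun b hb => ?_, ?_⟩, fun b hb c hc => ?_⟩
    · have h5 : b ∈ (l.map Prod.fst).head? := by
        rw [List.head?_append_of_ne_nil _ (by simpa using hl)] at hb
        exact hb
      exact (hh b h5).symm
    · rw [List.head?_reverse] at hb
      exact (hl' b hb).symm
    · exact hch.imp fun _ _ h => Ne.symm h
    · simp only [List.head?_cons, Option.mem_some_iff] at hc
      rw [← hc]
      exact hl' b hb
  have hLcy : Cy (L.map Prod.fst) := by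
    refine Cy_of_chain _ hLch fun b hb c hc => ?_
    rw [hLfst] at hb hc
    simp only [List.head?_cons, Option.mem_some_iff] at hc
    rw [← hc]
    have h5 : b ∈ (l.map Prod.fst).head? := by
      rw [← List.getLast?_reverse]
      have h6 : a :: (l.map Prod.fst ++ i :: (l.map Prod.fst).reverse) =
          (a :: l.map Prod.fst ++ [i]) ++ (l.map Prod.fst).reverse := by simp
      rw [h6, List.getLast?_append_of_ne_nil _ (by simpa using hl)] at hb
      exact hb
    rw [List.head?_map, Option.mem_map] at h5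
    obtain ⟨p, hp, rfl⟩ := h5
    exact hhead p hp
  have hL0 : ∀ p ∈ L, p.2 ≠ 0 := by
    intro p hp
    rw [hL, List.mem_cons, List.mem_append, List.mem_cons] at hp
    rcases hp with rfl | hp | rfl | hp
    · exact one_ne_zero
    · exact h0 p hp
    · exact one_ne_zero
    · rw [sinv, List.mem_reverse, List.mem_map] at hp
      obtain ⟨q, hq, rfl⟩ := hp
      exact neg_ne_zero.2 (h0 q hq)
  refine tr_syl_ne L (by rw [hL]; simp) hLcy hL0 ?_
  have h5 : ψ (x a * x i) = x a ^ m * syl L * (x a ^ m)⁻¹ := by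
    rw [map_mul, ha, hg, hsyl]
    group
  rw [← tr_conj _ (x a ^ m), ← h5, h _ (by rw [hLfst]; simp)]
  have h6 := tr_syl_zero [(a, 1), (i, 1)] (L.map Prod.fst) hLcy (by
    have : 0 < l.length := List.length_pos_iff.2 hl
    rw [List.length_map, hL]
    simp
    omega)
  rwa [syl_cons, syl_cons, syl_nil, mul_one, zpow_one, zpow_one] at h6

theorem inner_of_fix (ψ : A n) (h : ∀ w : List (Fin n), w ≠ [] → ∀ g : F n, tr w (ψ g) = tr w g)
    (a : Fin n) (ha : ψ (x a) = x a) : ∃ u : F n, ∀ i, ψ (x i) = u * x i * u⁻¹ := by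
  classical
  choose m hm using conj_pow ψ h a ha
  by_cases hn : ∀ i, i = a
  · exact ⟨1, fun i => by rw [hn i, ha]; simp⟩
  push Not at hn
  obtain ⟨b, hb⟩ := hn
  refine ⟨x a ^ m b, fun i => ?_⟩
  by_cases hia : i = a
  · rw [hia, ha]
    group
  by_cases hib : i = b
  · rw [hib, hm b]
  suffices hmm : m i = m b by rw [hm i, hmm]
  by_contra hne
  -- `ψ (x i * x b)` has four syllables
  set L : List (Fin n × ℤ) := [(i, 1), (a, m b - m i), (b, 1), (a, m i - m b)] with hL
  have h1 : ψ (x i * x b) = x a ^ m i * syl L * (x a ^ m i)⁻¹ := by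
    rw [map_mul, hm i, hm b, hL, syl_cons, syl_cons, syl_cons, syl_cons, syl_nil]
    group
  have hfst : L.map Prod.fst = [i, a, b, a] := rfl
  have hcy : Cy (L.map Prod.fst) := by
    rw [hfst]
    refine Cy_of_chain _ ?_ ?_
    · simp [hia, hb, Ne.symm hb]
    · simp [Ne.symm hia]
  refine tr_syl_ne L (by rw [hL]; simp) hcy ?_ ?_
  · intro p hp
    rw [hL] at hp
    simp only [List.mem_cons, List.not_mem_nil, or_false] at hp
    rcases hp with rfl | rfl | rfl | rfl
    · exact one_ne_zero
    · exact sub_ne_zero.2 (Ne.symm hne)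
    · exact one_ne_zero
    · exact sub_ne_zero.2 hne
  · rw [← tr_conj _ (x a ^ m i), ← h1, h _ (by rw [hfst]; simp)]
    have h6 := tr_syl_zero [(i, 1), (b, 1)] (L.map Prod.fst) hcy (by rw [hfst]; simp)
    rwa [syl_cons, syl_cons, syl_nil, mul_one, zpow_one, zpow_one] at h6

theorem inner_of_tr {n : ℕ} (ψ : A n) (h : ∀ w : List (Fin n), w ≠ [] → ∀ g : F n, tr w (ψ g) = tr w g) :
    ψ ∈ Inn n := by
  have key : ∃ u : F n, ∀ i, ψ (x i) = u * x i * u⁻¹ := by
    rcases Nat.eq_zero_or_pos n with hn | hn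
    · subst hn
      exact ⟨1, fun i => i.elim0⟩
    · let a : Fin n := ⟨0, hn⟩
      obtain ⟨u, hu⟩ := conj_gen ψ h a
      obtain ⟨v, hv⟩ := inner_of_fix (MulAut.conj u⁻¹ * ψ) (fun w hw g => by
        rw [MulAut.mul_apply, MulAut.conj_apply, tr_conj, h w hw]) a (by
        rw [MulAut.mul_apply, MulAut.conj_apply, hu]
        group)
      refine ⟨u * v, fun i => ?_⟩
      have h1 := hv i
      rw [MulAut.mul_apply, MulAut.conj_apply] at h1
      have h2 : ψ (x i) = u * (u⁻¹ * ψ (x i) * u⁻¹⁻¹) * u⁻¹ := by group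
      rw [h2, h1]
      group
  obtain ⟨u, hu⟩ := key
  refine ⟨u, ?_⟩
  apply MulEquiv.toMonoidHom_injective
  refine FreeGroup.ext_hom _ _ fun i => ?_
  exact (hu i).symm

end Pool.Agent.AbSub
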