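import Mathlib

/-!
AbSub (captain helper72), module 2 (helper68): a decreasing sequence of saturated subgroups of a finitely generated
commutative group with trivial intersection becomes trivial.
-/

set_option autoImplicit false

namespace Pool.Agent.AbSub

open Module

theorem mod_stab {M : Type*} [AddCommGroup M] [Module.Finite ℤ M] (S : ℕ → Submodule ℤ M)
    (hle : ∀ c, S (c + 1) ≤ S c)
    (htf : ∀ c, ∀ x ∈ S 1, ∀ k : ℕ, k ≠ 0 → k • x ∈ S c → x ∈ S c)
    (hcap : ∀ x, (∀ c, x ∈ S c) → x = 0) : ∃ c, ∀ x ∈ S c, x = 0 := by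
  have hanti : Antitone S := antitone_nat_of_succ_le hle
  obtain ⟨n, hn⟩ : ∃ n, ∀ m, finrank ℤ (S (n + 1)) ≤ finrank ℤ (S (m + 1)) := by
    obtain ⟨n, hn⟩ := (Set.range_nonempty fun n => finrank ℤ (S (n + 1))).elim fun a ha =>
      WellFounded.has_min (wellFounded_lt (α := ℕ)) (Set.range fun n => finrank ℤ (S (n + 1))) ⟨a, ha⟩
    obtain ⟨⟨m, rfl⟩, h2⟩ := hn
    exact ⟨m, fun q => not_lt.1 (h2 _ ⟨q, rfl⟩)⟩
  refine ⟨n + 1, fun x hx => hcap x fun c => ?_⟩
  -- it is enough to treat `c ≥ n + 1`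
  suffices h : ∀ c, n + 1 ≤ c → x ∈ S c by
    rcases le_total (n + 1) c with h1 | h1
    · exact h c h1
    · exact hanti h1 hx
  intro c hc
  obtain ⟨q, rfl⟩ : ∃ q, c = q + 1 := ⟨c - 1, by omega⟩
  have hle1 : S (q + 1) ≤ S (n + 1) := hanti hc
  have hr : finrank ℤ (S (q + 1)) = finrank ℤ (S (n + 1)) :=
    le_antisymm (Submodule.finrank_mono hle1) (hn q)
  set K : Submodule ℤ (S (n + 1)) := (S (q + 1)).submoduleOf (S (n + 1)) with hK
  have h1 : finrank ℤ K = finrank ℤ (S (q + 1)) := (Submodule.submoduleOfEquivOfLe hle1).finrank_eq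
  have h2 : finrank ℤ (S (n + 1) ⧸ K) + finrank ℤ K = finrank ℤ (S (n + 1)) :=
    Submodule.finrank_quotient_add_finrank K
  have h3 : finrank ℤ (S (n + 1) ⧸ K) = 0 := by omega
  rw [Module.finrank_eq_zero_iff_isTorsion] at h3
  obtain ⟨⟨a, ha⟩, h4⟩ := @h3 (K.mkQ ⟨x, hx⟩)
  have ha0 : a ≠ 0 := nonZeroDivisors.ne_zero ha
  have h5 : a • x ∈ S (q + 1) := by
    have h6 : K.mkQ (a • ⟨x, hx⟩) = 0 := by
      rw [map_smul]
      exact h4
    rw [← LinearMap.mem_ker, Submodule.ker_mkQ] at h6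
    exact h6
  refine htf (q + 1) x (hanti (by omega) hx) a.natAbs (Int.natAbs_ne_zero.2 ha0) ?_
  have h7 : (a.natAbs • x = a • x) ∨ (a.natAbs • x = -(a • x)) := by
    rcases Int.natAbs_eq a with h | h
    · left
      conv_rhs => rw [h]
      rw [natCast_zsmul]
    · right
      conv_rhs => rw [h]
      rw [neg_smul, natCast_zsmul, neg_neg]
  rcases h7 with h7 | h7
  · rw [h7]; exact h5
  · rw [h7]; exact neg_mem h5

theorem stab {Ω : Type*} [Group Ω] (P : Subgroup Ω) (hfg : P.FG) (hab : ∀ a ∈ P, ∀ b ∈ P, a * b = b * a)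
    (Nc : ℕ → Subgroup Ω) (hle : ∀ c, Nc (c + 1) ≤ Nc c)
    (htf : ∀ c, ∀ x ∈ P, x ∈ Nc 1 → ∀ k : ℕ, k ≠ 0 → x ^ k ∈ Nc c → x ∈ Nc c)
    (hcap : ∀ x ∈ P, (∀ c, x ∈ Nc c) → x = 1) : ∃ c, ∀ x ∈ P, x ∈ Nc c → x = 1 := by
  let _ : CommGroup P := { (inferInstance : Group P) with
    mul_comm := fun a b => Subtype.ext (hab a.1 a.2 b.1 b.2) }
  have hG : Group.FG P := (Group.fg_iff_subgroup_fg P).2 hfg
  have : AddGroup.FG (Additive P) := by
    rw [← GroupFG.iff_add_fg]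
    exact hG
  have : Module.Finite ℤ (Additive P) := Module.Finite.iff_addGroup_fg.2 inferInstance
  let S : ℕ → Submodule ℤ (Additive P) := fun c =>
    AddSubgroup.toIntSubmodule (Subgroup.toAddSubgroup ((Nc c).subgroupOf P))
  have hS : ∀ c (y : P), Additive.ofMul y ∈ S c ↔ (y : Ω) ∈ Nc c := fun c y => Iff.rfl
  have h1 : ∀ c, ∀ y ∈ S 1, ∀ k : ℕ, k ≠ 0 → k • y ∈ S c → y ∈ S c := fun c y hy k hk h =>
    htf c (Additive.toMul y : P) (Additive.toMul y : P).2 hy k hk h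
  have h2 : ∀ y, (∀ c, y ∈ S c) → y = 0 := fun y hy => by
    have := hcap (Additive.toMul y : P) (Additive.toMul y : P).2 hy
    exact congrArg Additive.ofMul (Subtype.ext this : (Additive.toMul y : P) = 1)
  obtain ⟨c, hc⟩ := mod_stab S (fun c y hy => hle c hy) h1 h2
  refine ⟨c, fun y hy h => ?_⟩
  have := hc (Additive.ofMul ⟨y, hy⟩) h
  exact congrArg (fun z : Additive P => ((Additive.toMul z : P) : Ω)) this

end Pool.Agent.AbSub
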