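import Pool.Agent.AbSub.Chev
import Pool.Agent.AbSub.Stab

/-!
# From linear representations to good subgroups
-/

set_option autoImplicit false

namespace Pool.Agent.AbSub

/-- a unipotent element of finite order is trivial -/
theorem unip_tf' {S : Type*} [Ring S] (htf : ∀ (k : ℕ) (y : S), k ≠ 0 → (k : S) * y = 0 → y = 0)
    {T : S} (h : IsNilpotent (T - 1)) {k : ℕ} (hk : k ≠ 0) (hT : T ^ k = 1) : T = 1 := by
  set n : S := T - 1 with hn
  have h1 : n * ∑ i ∈ Finset.range k, T ^ i = 0 := by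
    rw [hn, mul_geom_sum, hT, sub_self]
  have h2 : ∑ i ∈ Finset.range k, T ^ i =
      k + n * ∑ i ∈ Finset.range k, ∑ j ∈ Finset.range i, T ^ j := by
    rw [Finset.mul_sum]
    have h3 : ∀ i ∈ Finset.range k, n * ∑ j ∈ Finset.range i, T ^ j = T ^ i - 1 := by
      intro i _
      rw [hn, mul_geom_sum]
    rw [Finset.sum_congr rfl h3, Finset.sum_sub_distrib]
    simp
  set s : S := ∑ i ∈ Finset.range k, ∑ j ∈ Finset.range i, T ^ j with hs
  rw [h2, mul_add] at h1
  have h3 : n * (k : S) = -(n * (n * s)) := eq_neg_of_add_eq_zero_left h1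
  have h4 : ∀ j : ℕ, n ^ (j + 1) = 0 → n = 0 := by
    intro j
    induction j with
    | zero => intro h; simpa using h
    | succ j ih =>
      intro h
      apply ih
      apply htf k _ hk
      rw [(Nat.cast_commute k (n ^ (j + 1))).eq, pow_succ, mul_assoc, h3, mul_neg, ← mul_assoc n n s,
        ← mul_assoc, ← mul_assoc, ← pow_succ, ← pow_succ, h, zero_mul, neg_zero]
  obtain ⟨j, hj⟩ := h
  exact sub_eq_zero.mp (h4 j (by rw [pow_succ, hj, zero_mul]))

/-- division by an integer -/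
theorem exists_div {V : Type} [AddCommGroup V] [Module.Free ℤ V] (y : Module.End ℤ V) (M : ℕ)
    (hM : M ≠ 0) (h : ∀ v : V, ∃ u : V, y v = M • u) : ∃ z : Module.End ℤ V, y = M • z := by
  have hinj : ∀ u u' : V, M • u = M • u' → u = u' := by
    intro u u' h
    have h1 : (M : ℤ) • (u - u') = 0 := by
      rw [natCast_zsmul, smul_sub, h, sub_self]
    rcases smul_eq_zero.mp h1 with h2 | h2
    · exact absurd h2 (by exact_mod_cast hM)
    · exact sub_eq_zero.mp h2
  choose f hf using h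
  let g : V →+ V :=
    { toFun := f
      map_zero' := hinj _ _ (by rw [← hf, map_zero, smul_zero])
      map_add' := fun a b => hinj _ _ (by rw [← hf, map_add, hf, hf, smul_add]) }
  refine ⟨g.toIntLinearMap, ?_⟩
  ext v
  rw [hf v]
  rfl

/-- torsion modulo a subgroup, additive form -/
theorem exists_sat_exp_add {S : Type*} [AddCommGroup S] [Module.Finite ℤ S] (R : AddSubgroup S) :
    ∃ t : ℕ, t ≠ 0 ∧ ∀ y : S, ∀ k : ℕ, k ≠ 0 → k • y ∈ R → t • y ∈ R := by
  have h1 : AddGroup.FG S := Module.Finite.iff_addGroup_fg.mp inferInstance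
  have h2 : Group.FG (Multiplicative S) := AddGroup.fg_iff_mul_fg.mp h1
  obtain ⟨t, ht, h⟩ := exists_sat_exp (AddSubgroup.toSubgroup R)
  exact ⟨t, ht, fun y k hk hy => h (Multiplicative.ofAdd y) ⟨k, hk, hy⟩⟩

theorem lin {Ω : Type*} [Group Ω] {K0 : Set (Subgroup Ω)} (V : ℕ → Type) [∀ c, AddCommGroup (V c)]
    [∀ c, Module.Free ℤ (V c)] [∀ c, Module.Finite ℤ (V c)] (ρ : (c : ℕ) → Ω →* Module.End ℤ (V c))
    (h1 : ∀ c, ∀ M : ℕ, M ≠ 0 → ∃ K ∈ K0, ∀ x ∈ K, ∀ v : V c, ∃ u : V c, ρ c x v - v = M • u)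
    (h2 : ∀ c x, ρ (c + 1) x = 1 → ρ c x = 1)
    (h3 : ∀ c x, ρ 1 x = 1 → IsNilpotent (ρ c x - 1))
    (h4 : ∀ x, (∀ c, ρ c x = 1) → x = 1)
    (P : Subgroup Ω) (hfg : P.FG) (hab : ∀ a ∈ P, ∀ b ∈ P, a * b = b * a) :
    ∃ P1 ≤ P, Good K0 P1 ∧ (P1.subgroupOf P).FiniteIndex := by
  classical
  -- a faithful representation
  obtain ⟨c, hc⟩ : ∃ c, ∀ x ∈ P, x ∈ (ρ c).ker → x = 1 := by
    refine stab P hfg hab (fun c => (ρ c).ker) (fun c x hx => h2 c x hx) ?_ ?_
    · intro c x _ hx1 k hk hxk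
      have hxk' : ρ c x ^ k = 1 := by
        rw [← map_pow]
        exact hxk
      refine unip_tf' (fun k y hk hy => ?_) (h3 c x hx1) hk hxk'
      have h5 : (k : ℤ) • y = 0 := by
        rw [zsmul_eq_mul]
        push_cast
        exact hy
      rcases smul_eq_zero.mp h5 with h6 | h6
      · exact absurd h6 (by exact_mod_cast hk)
      · exact h6
    · intro x _ hx
      exact h4 x hx
  set S := Module.End ℤ (V c) with hS
  have hcomm : ∀ a ∈ (ρ c) '' (P : Set Ω), ∀ b ∈ (ρ c) '' (P : Set Ω), a * b = b * a := by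
    rintro _ ⟨a, ha, rfl⟩ _ ⟨b, hb, rfl⟩
    rw [← map_mul, hab a ha b hb, map_mul]
  set R := Algebra.adjoin ℤ ((ρ c) '' (P : Set Ω)) with hR
  let _ : CommRing R := Algebra.adjoinCommRingOfComm ℤ hcomm
  have hnoe : IsNoetherian ℤ S := inferInstance
  have hRfin : Module.Finite ℤ R := by
    have : Module.Finite ℤ (Subalgebra.toSubmodule R) := inferInstance
    exact this
  have hRfree : Module.Free ℤ R := by
    have : Module.Free ℤ (Subalgebra.toSubmodule R) := inferInstance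
    exact this
  let f : P →* R :=
    { toFun := fun x => ⟨ρ c x, Algebra.subset_adjoin ⟨x.1, x.2, rfl⟩⟩
      map_one' := Subtype.ext (by simp)
      map_mul' := fun a b => Subtype.ext (by simp) }
  let ι : P →* Rˣ := f.toHomUnits
  have hι : ∀ x : P, (((ι x : Rˣ) : R) : S) = ρ c x := fun x => rfl
  have hιinj : ∀ x : P, ι x = 1 → x = 1 := by
    intro x hx
    apply Subtype.ext
    apply hc x.1 x.2
    show ρ c x = 1
    rw [← hι, hx]
    rfl
  have hPg : Group.FG P := (Group.fg_iff_subgroup_fg P).mpr hfg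
  have hBfg : (ι.range).FG := by
    have : Group.FG ι.range := Group.fg_of_surjective ι.rangeRestrict_surjective
    exact (Group.fg_iff_subgroup_fg _).mp this
  obtain ⟨B1, hB1, hB1fi, hB1tf, hB1full⟩ := chev R ι.range hBfg
  set P1 : Subgroup Ω := (B1.comap ι).map P.subtype with hP1
  have hP1P : P1 ≤ P := by
    rintro _ ⟨y, _, rfl⟩
    exact y.2
  have hP1mem : ∀ (y : Ω) (hy : y ∈ P), y ∈ P1 ↔ ι ⟨y, hy⟩ ∈ B1 := by
    intro y hy
    constructor
    · rintro ⟨z, hz, rfl⟩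
      exact hz
    · intro h
      exact ⟨⟨y, hy⟩, h, rfl⟩
  refine ⟨P1, hP1P, ⟨fun a ha b hb => hab a (hP1P ha) b (hP1P hb), fg_le' hfg hP1P hab, ?_, ?_⟩, ?_⟩
  · intro a ha k hk hak
    have haP := hP1P ha
    have h5 := hB1tf _ ((hP1mem a haP).mp ha) k hk (by
      rw [← map_pow]
      have : (⟨a, haP⟩ : P) ^ k = 1 := Subtype.ext (by simpa using hak)
      rw [this, map_one])
    exact congrArg Subtype.val (hιinj _ h5)
  · intro N hN
    obtain ⟨M, hM, hfull⟩ := hB1full N hN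
    obtain ⟨t, ht, hsat⟩ := exists_sat_exp_add (S := S) (Subalgebra.toSubmodule R).toAddSubgroup
    obtain ⟨K, hK, hKx⟩ := h1 c (M * t) (Nat.mul_ne_zero hM ht)
    refine ⟨K, hK, fun a ha haK => ?_⟩
    have haP := hP1P ha
    obtain ⟨y, hy⟩ := exists_div (ρ c a - 1) (M * t) (Nat.mul_ne_zero hM ht) (fun v => hKx a haK v)
    have h5 : t • y ∈ R := by
      apply hsat y (M * t) (Nat.mul_ne_zero hM ht)
      show (M * t) • y ∈ R
      rw [← hy]
      exact R.sub_mem (Algebra.subset_adjoin ⟨a, haP, rfl⟩) R.one_mem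
    obtain ⟨c', hc', h6⟩ := hfull (ι ⟨a, haP⟩) ((hP1mem a haP).mp ha) ⟨⟨t • y, h5⟩, by
      apply Subtype.ext
      show ρ c a = 1 + ((M : R) : S) * (t • y)
      have h7 : ((M : R) : S) = (M : S) := by simp
      rw [h7, ← nsmul_eq_mul, ← mul_smul, ← hy]
      abel⟩
    obtain ⟨b, rfl⟩ := hB1 hc'
    refine ⟨b.1, (hP1mem b.1 b.2).mpr hc', ?_⟩
    have h8 : ι (⟨a, haP⟩ * (b ^ N)⁻¹) = 1 := by
      rw [map_mul, h6, map_inv, map_pow, mul_inv_cancel]
    have h9 := hιinj _ h8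
    have h10 := mul_inv_eq_one.mp h9
    exact congrArg Subtype.val h10
  · have h5 : (B1.subgroupOf ι.range).Normal := inferInstance
    refine finiteIndex_of_pow_le' hfg hab (B1.subgroupOf ι.range).index hB1fi.index_ne_zero
      fun y hy => ?_
    rw [hP1mem (y ^ _) (P.pow_mem hy _)]
    have h6 := Subgroup.pow_index_mem (B1.subgroupOf ι.range) ⟨ι ⟨y, hy⟩, ⟨_, rfl⟩⟩
    rw [Subgroup.mem_subgroupOf, Subgroup.coe_pow] at h6
    have h7 : (⟨y ^ (B1.subgroupOf ι.range).index, P.pow_mem hy _⟩ : P) =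
      ⟨y, hy⟩ ^ (B1.subgroupOf ι.range).index := rfl
    rw [h7, map_pow]
    exact h6

end Pool.Agent.AbSub
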