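import Pool.Agent.AbSub.Faith

/-! # The congruence topology of `Out (F_n)` -/

set_option autoImplicit false

namespace Pool.Agent.AbSub

open Pool.Agent.CSP3 (F A RR JJ DD muR mu mm gg x)

variable {n : ℕ}

theorem char_mem {K : Subgroup (F n)} (h1 : K.Characteristic) (ψ : A n) {k : F n} (hk : k ∈ K) :
    ψ k ∈ K := by
  have h := Subgroup.characteristic_iff_le_comap.1 h1 ψ
  exact h hk

/-- the automorphisms which act on `F / K` as inner automorphisms form a subgroup -/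
def congrSub (K : Subgroup (F n)) (h1 : K.Characteristic) : Subgroup (A n) where
  carrier := congr K
  one_mem' := ⟨1, fun y => by simp [K.one_mem]⟩
  mul_mem' := by
    rintro ψ φ ⟨g, hg⟩ ⟨h, hh⟩
    refine ⟨g * h, fun y => ?_⟩
    have e1 : (ψ * φ) y * (g * h * y * (g * h)⁻¹)⁻¹ =
        ψ (φ y * (h * y * h⁻¹)⁻¹) * (ψ (h * y * h⁻¹) * (g * (h * y * h⁻¹) * g⁻¹)⁻¹) := by
      rw [MulAut.mul_apply, map_mul, map_inv]
      group
    rw [e1]
    exact K.mul_mem (char_mem h1 ψ (hh y)) (hg _)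
  inv_mem' := by
    rintro ψ ⟨g, hg⟩
    have hn : K.Normal := Subgroup.normal_of_characteristic K
    refine ⟨g⁻¹, fun z => ?_⟩
    have h2 := hg (ψ⁻¹ z)
    rw [MulAut.apply_inv_self] at h2
    have h3 := hn.conj_mem _ (K.inv_mem h2) g⁻¹
    have e1 : ψ⁻¹ z * (g⁻¹ * z * g⁻¹⁻¹)⁻¹ =
        g⁻¹ * (z * (g * ψ⁻¹ z * g⁻¹)⁻¹)⁻¹ * g⁻¹⁻¹ := by
      group
    rw [e1]
    exact h3

theorem inn_le (K : Subgroup (F n)) (h1 : K.Characteristic) : Inn n ≤ congrSub K h1 := by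
  rintro _ ⟨g, rfl⟩
  exact ⟨g, fun y => by rw [MulAut.conj_apply, mul_inv_cancel]; exact K.one_mem⟩

theorem exists_KK {n : ℕ} (K : Subgroup (F n)) (h1 : K.Characteristic) (h2 : K.FiniteIndex) :
    ∃ L ∈ KK n, ∀ ψ : A n, (ψ : Out n) ∈ L ↔ ψ ∈ congr K := by
  have key : ∀ ψ : A n, (ψ : Out n) ∈ (congrSub K h1).map (QuotientGroup.mk' (Inn n)) ↔
      ψ ∈ congr K := by
    intro ψ
    constructor
    · rintro ⟨φ, hφ, h3⟩
      have h4 : φ⁻¹ * ψ ∈ Inn n := QuotientGroup.eq.1 h3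
      have h5 := (congrSub K h1).mul_mem hφ (inn_le K h1 h4)
      rw [mul_inv_cancel_left] at h5
      exact h5
    · intro h
      exact ⟨ψ, h, rfl⟩
  exact ⟨_, ⟨K, h1, h2, key⟩, key⟩

theorem KK_normal (L : Subgroup (Out n)) (hL : L ∈ KK n) : L.Normal := by
  obtain ⟨K, h1, h2, hK⟩ := hL
  refine ⟨fun a ha b => ?_⟩
  obtain ⟨ψ, rfl⟩ := QuotientGroup.mk_surjective a
  obtain ⟨φ, rfl⟩ := QuotientGroup.mk_surjective b
  rw [hK] at ha
  obtain ⟨g, hg⟩ := ha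
  have h3 : ((φ * ψ * φ⁻¹ : A n) : Out n) ∈ L := by
    rw [hK]
    refine ⟨φ g, fun z => ?_⟩
    have h4 := char_mem h1 φ (hg (φ⁻¹ z))
    have e1 : (φ * ψ * φ⁻¹) z * (φ g * z * (φ g)⁻¹)⁻¹ =
        φ (ψ (φ⁻¹ z) * (g * φ⁻¹ z * g⁻¹)⁻¹) := by
      simp only [MulAut.mul_apply, map_mul, map_inv, MulAut.apply_inv_self]
    rw [e1]
    exact h4
  exact h3

theorem KK_fin (L : Subgroup (Out n)) (hL : L ∈ KK n) : L.FiniteIndex := by
  obtain ⟨K, h1, h2, hK⟩ := hL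
  have hn : K.Normal := Subgroup.normal_of_characteristic K
  have hfin : Finite (F n ⧸ K) := inferInstance
  have hF : Finite (Fin n → F n ⧸ K) := inferInstance
  have hlift : ∀ c : Out n ⧸ L, ∃ ψ : A n, (((ψ : A n) : Out n) : Out n ⧸ L) = c := by
    intro c
    obtain ⟨y, rfl⟩ := QuotientGroup.mk_surjective c
    obtain ⟨ψ, rfl⟩ := QuotientGroup.mk_surjective y
    exact ⟨ψ, rfl⟩
  choose ψ hψ using hlift
  have : Finite (Out n ⧸ L) := by
    refine Finite.of_injective (β := Fin n → F n ⧸ K)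
      (fun c i => ((ψ c (x i) : F n) : F n ⧸ K)) ?_
    intro a b hab
    have h3 : ∀ y : F n, ((ψ a y : F n) : F n ⧸ K) = ((ψ b y : F n) : F n ⧸ K) := by
      have h4 : (QuotientGroup.mk' K).comp (ψ a).toMonoidHom =
          (QuotientGroup.mk' K).comp (ψ b).toMonoidHom :=
        FreeGroup.ext_hom _ _ fun i => congrFun hab i
      exact fun y => DFunLike.congr_fun h4 y
    rw [← hψ a, ← hψ b, QuotientGroup.eq]
    have h5 : (((ψ a)⁻¹ * ψ b : A n) : Out n) ∈ L := by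
      rw [hK]
      refine ⟨1, fun y => ?_⟩
      have h6 : (ψ a y)⁻¹ * ψ b y ∈ K := QuotientGroup.eq.1 (h3 y)
      have h7 := char_mem h1 (ψ a)⁻¹ h6
      rw [map_mul, map_inv, MulAut.inv_apply_self] at h7
      have h8 := hn.conj_mem _ h7 y
      have e1 : ((ψ a)⁻¹ * ψ b) y * (1 * y * 1⁻¹)⁻¹ = y * (y⁻¹ * (ψ a)⁻¹ (ψ b y)) * y⁻¹ := by
        rw [MulAut.mul_apply]
        group
      rw [e1]
      exact h8
    exact h5
  exact Subgroup.finiteIndex_of_finite_quotient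

theorem congr_mono {K K' : Subgroup (F n)} (h : K ≤ K') {ψ : A n} (hψ : ψ ∈ congr K) :
    ψ ∈ congr K' := by
  obtain ⟨g, hg⟩ := hψ
  exact ⟨g, fun y => h (hg y)⟩

theorem KK_le {L L' : Subgroup (Out n)} {K K' : Subgroup (F n)} (h : K ≤ K')
    (hL : ∀ ψ : A n, (ψ : Out n) ∈ L ↔ ψ ∈ congr K) (hL' : ∀ ψ : A n, (ψ : Out n) ∈ L' ↔ ψ ∈ congr K') :
    L ≤ L' := by
  intro y hy
  obtain ⟨ψ, rfl⟩ := QuotientGroup.mk_surjective y
  exact (hL' ψ).2 (congr_mono h ((hL ψ).1 hy))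

theorem KK_dir (L : Subgroup (Out n)) (hL : L ∈ KK n) (L' : Subgroup (Out n)) (hL' : L' ∈ KK n) :
    ∃ M ∈ KK n, M ≤ L ∧ M ≤ L' := by
  obtain ⟨K, h1, h2, hK⟩ := hL
  obtain ⟨K', h1', h2', hK'⟩ := hL'
  have h3 : (K ⊓ K').Characteristic := by
    rw [Subgroup.characteristic_iff_le_comap]
    intro φ g hg
    exact ⟨char_mem h1 φ hg.1, char_mem h1' φ hg.2⟩
  obtain ⟨M, hM, hM'⟩ := exists_KK (K ⊓ K') h3 inferInstance
  exact ⟨M, hM, KK_le inf_le_left hM' hK, KK_le inf_le_right hM' hK'⟩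

theorem KK_nonempty (n : ℕ) : (KK n).Nonempty := by
  obtain ⟨L, hL, _⟩ := exists_KK (⊤ : Subgroup (F n)) inferInstance inferInstance
  exact ⟨L, hL⟩

/-- an element of a free module of finite rank which is divisible by all integers is zero -/
theorem eq_zero_of_div {V : Type} [AddCommGroup V] [Module.Free ℤ V] [Module.Finite ℤ V] (v : V)
    (h : ∀ M : ℕ, M ≠ 0 → ∃ u : V, v = M • u) : v = 0 := by
  let B := Module.Free.chooseBasis ℤ V
  rw [← B.repr.map_eq_zero_iff]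
  ext i
  by_contra hne
  have hne' : B.repr v i ≠ 0 := hne
  obtain ⟨u, hu⟩ := h ((B.repr v i).natAbs + 1) (Nat.succ_ne_zero _)
  have h1 : B.repr v i = (((B.repr v i).natAbs + 1 : ℕ) : ℤ) * B.repr u i := by
    conv_lhs => rw [hu]
    rw [map_nsmul, Finsupp.smul_apply, nsmul_eq_mul]
  have h2 : (((B.repr v i).natAbs + 1 : ℕ) : ℤ) ∣ B.repr v i := ⟨_, h1⟩
  have h3 := Int.natAbs_dvd_natAbs.2 h2
  rw [Int.natAbs_natCast] at h3
  have h4 := Nat.le_of_dvd (Int.natAbs_pos.2 hne') h3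
  omega

/-- the topology is separated if there are faithful integral representations -/
theorem top_KK_of {n : ℕ} (V : ℕ → Type) [∀ c, AddCommGroup (V c)] [∀ c, Module.Free ℤ (V c)]
    [∀ c, Module.Finite ℤ (V c)] (ρ : (c : ℕ) → Out n →* Module.End ℤ (V c))
    (h1 : ∀ c, ∀ M : ℕ, M ≠ 0 → ∃ L ∈ KK n, ∀ y ∈ L, ∀ v : V c, ∃ u : V c, ρ c y v - v = M • u)
    (h4 : ∀ y, (∀ c, ρ c y = 1) → y = 1) : Top (KK n) where
  normal := KK_normal
  fin := KK_fin
  dir := KK_dir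
  ne := KK_nonempty n
  sep := by
    intro y hy
    refine h4 y fun c => ?_
    refine LinearMap.ext fun v => ?_
    rw [Module.End.one_apply, ← sub_eq_zero]
    refine eq_zero_of_div _ fun M hM => ?_
    obtain ⟨L, hL, h⟩ := h1 c M hM
    exact h y (hy L hL) v

/-- the representations on the trace forms are faithful together -/
theorem faith_of {n : ℕ} (ρ : (c : ℕ) → Out n →* Module.End ℤ (VV n c))
    (hρ : ∀ c (ψ : A n), ρ c (ψ : Out n) = 1 ↔
      ∀ (f : VV n c) (g : F n), f.1 (gg 0 (ψ g)) = f.1 (gg 0 g))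
    (y : Out n) (h : ∀ c, ρ c y = 1) : y = 1 := by
  obtain ⟨ψ, rfl⟩ := QuotientGroup.mk_surjective y
  rw [QuotientGroup.eq_one_iff]
  refine inner_of_tr ψ fun w hw g => ?_
  obtain ⟨f, hf⟩ := tr_mem w hw
  rw [← hf, ← hf]
  exact (hρ w.length ψ).1 (h w.length) f g

end Pool.Agent.AbSub
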