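import Pool.Agent.AbSub.Defs

/-!
# The action of `Out F` on the trace forms of the group ring

`rho n c` is the action of `Out n` on `VV n c`: `(ψ f)(r) = f (ψ⁻¹ r)`.
-/

set_option autoImplicit false

namespace Pool.Agent.AbSub

open Pool.Agent.CSP3 (F A RR JJ DD muR mu mm gg x)

variable {n : ℕ}

/-- additive maps on the integral group ring agree if they agree on the group -/
theorem form_ext {M : Type*} [AddCommGroup M] {f g : RR 0 n →+ M}
    (h : ∀ u : F n, f (gg 0 u) = g (gg 0 u)) : f = g := by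
  refine MonoidAlgebra.addMonoidHom_ext fun u a => ?_
  have key : ∀ b : ℤ, (MonoidAlgebra.single u (b : ZMod 0) : RR 0 n) = b • (gg 0 u : RR 0 n) := by
    intro b
    show _ = b • (MonoidAlgebra.single u (1 : ZMod 0) : RR 0 n)
    rw [MonoidAlgebra.smul_single, zsmul_one]
    rfl
  have e := key a
  rw [show ((a : ℤ) : ZMod 0) = a from rfl] at e
  rw [e, map_zsmul, map_zsmul, h]

theorem mm_conj (g : F n) (r : RR 0 n) :
    mm 0 (MulAut.conj g : A n).toMonoidHom r = gg 0 g * r * gg 0 g⁻¹ := by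
  have : (mm 0 (MulAut.conj g : A n).toMonoidHom : RR 0 n →ₐ[ZMod 0] RR 0 n).toLinearMap =
      LinearMap.mulLeft (ZMod 0) (gg 0 g) ∘ₗ LinearMap.mulRight (ZMod 0) (gg 0 g⁻¹) := by
    refine Pool.Agent.CSP3.RR_hom_ext fun u => ?_
    rw [AlgHom.toLinearMap_apply, Pool.Agent.CSP3.mm_gg, LinearMap.comp_apply,
      LinearMap.mulRight_apply, LinearMap.mulLeft_apply, ← map_mul, ← map_mul, ← mul_assoc]
    rfl
  have h := LinearMap.congr_fun this r
  rw [LinearMap.comp_apply, LinearMap.mulRight_apply, LinearMap.mulLeft_apply, ← mul_assoc] at h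
  exact h

theorem mm_mul_apply (ψ φ : A n) (r : RR 0 n) :
    mm 0 (ψ * φ).toMonoidHom r = mm 0 ψ.toMonoidHom (mm 0 φ.toMonoidHom r) := by
  rw [Pool.Agent.CSP3.mm_comp]
  rfl

theorem mm_one_apply (r : RR 0 n) : mm 0 (1 : A n).toMonoidHom r = r :=
  Pool.Agent.CSP3.mm_id 0 r

/-- the form `f (ψ⁻¹ r)` -/
noncomputable def actForm {c : ℕ} (ψ : A n) (f : VV n c) : VV n c :=
  ⟨f.1.comp (mm 0 (ψ⁻¹).toMonoidHom : RR 0 n →+* RR 0 n).toAddMonoidHom, by
    refine ⟨fun r hr => ?_, fun r s => ?_⟩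
    · exact f.2.1 _ (Pool.Agent.CSP3.mm_mem_JJ _ hr)
    · have h1 := map_mul (mm 0 (ψ⁻¹).toMonoidHom) r s
      have h2 := map_mul (mm 0 (ψ⁻¹).toMonoidHom) s r
      show f.1 (mm 0 (ψ⁻¹).toMonoidHom (r * s)) = f.1 (mm 0 (ψ⁻¹).toMonoidHom (s * r))
      rw [h1, h2]
      exact f.2.2 _ _⟩

theorem actForm_apply {c : ℕ} (ψ : A n) (f : VV n c) (r : RR 0 n) :
    (actForm ψ f).1 r = f.1 (mm 0 (ψ⁻¹).toMonoidHom r) := rfl

/-- the action of the automorphisms on the trace forms -/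
noncomputable def rhoA (n c : ℕ) : A n →* Module.End ℤ (VV n c) where
  toFun ψ :=
    { toFun := actForm ψ
      map_add' := fun f g => Subtype.ext (AddMonoidHom.ext fun r => rfl)
      map_smul' := fun m f => Subtype.ext (AddMonoidHom.ext fun r => rfl) }
  map_one' := by
    refine LinearMap.ext fun f => Subtype.ext (AddMonoidHom.ext fun r => ?_)
    show f.1 (mm 0 ((1 : A n)⁻¹).toMonoidHom r) = f.1 r
    rw [inv_one, mm_one_apply]
  map_mul' ψ φ := by
    refine LinearMap.ext fun f => Subtype.ext (AddMonoidHom.ext fun r => ?_)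
    show f.1 (mm 0 ((ψ * φ)⁻¹).toMonoidHom r) =
      f.1 (mm 0 (φ⁻¹).toMonoidHom (mm 0 (ψ⁻¹).toMonoidHom r))
    rw [mul_inv_rev, mm_mul_apply]

theorem rhoA_apply {c : ℕ} (ψ : A n) (f : VV n c) (r : RR 0 n) :
    (rhoA n c ψ f).1 r = f.1 (mm 0 (ψ⁻¹).toMonoidHom r) := rfl

theorem rhoA_inn {c : ℕ} (ψ : A n) (hψ : ψ ∈ Inn n) : rhoA n c ψ = 1 := by
  have hψ' : ψ⁻¹ ∈ Inn n := (Inn n).inv_mem hψ
  obtain ⟨g, hg⟩ := hψ'
  refine LinearMap.ext fun f => Subtype.ext (AddMonoidHom.ext fun r => ?_)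
  rw [rhoA_apply, ← hg, mm_conj, f.2.2, ← mul_assoc, Pool.Agent.CSP3.gg_inv_mul, one_mul]
  rfl

/-- the action of `Out F` on the trace forms of degree at most `c` -/
noncomputable def rho (n c : ℕ) : Out n →* Module.End ℤ (VV n c) :=
  QuotientGroup.lift (Inn n) (rhoA n c) fun ψ hψ => rhoA_inn ψ hψ

theorem rho_mk {n : ℕ} (c : ℕ) (ψ : A n) : rho n c (ψ : Out n) = rhoA n c ψ := rfl

theorem rho_apply {n : ℕ} (c : ℕ) (ψ : A n) (f : VV n c) (r : RR 0 n) :
    (rho n c (ψ : Out n) f).1 (mm 0 ψ.toMonoidHom r) = f.1 r := by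
  rw [rho_mk, rhoA_apply, ← mm_mul_apply, inv_mul_cancel, mm_one_apply]

theorem rho_one_iff {n : ℕ} (c : ℕ) (ψ : A n) : rho n c (ψ : Out n) = 1 ↔
    ∀ (f : VV n c) (g : F n), f.1 (gg 0 (ψ g)) = f.1 (gg 0 g) := by
  constructor
  · intro h f g
    have h1 := rho_apply c ψ f (gg 0 g)
    rw [h, Pool.Agent.CSP3.mm_gg] at h1
    exact h1
  · intro h
    refine LinearMap.ext fun f => Subtype.ext (form_ext fun u => ?_)
    have h1 := rho_apply c ψ f (gg 0 (ψ⁻¹ u))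
    rw [Pool.Agent.CSP3.mm_gg] at h1
    have h2 : ψ (ψ⁻¹ u) = u := MulEquiv.apply_symm_apply ψ u
    have h3 := h f (ψ⁻¹ u)
    rw [h2] at h3
    rw [show ψ.toMonoidHom (ψ⁻¹ u) = u from h2] at h1
    rw [h1, ← h3]
    rfl

theorem VV_mono {c d : ℕ} (h : c ≤ d) : VV n c ≤ VV n d := by
  rintro f ⟨h1, h2⟩
  exact ⟨fun r hr => h1 r (Pool.Agent.CSP3.JJ_anti (by omega) hr), h2⟩

theorem rho_h2 (n c : ℕ) (y : Out n) (h : rho n (c + 1) y = 1) : rho n c y = 1 := by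
  induction y using QuotientGroup.induction_on with
  | H ψ =>
    rw [rho_one_iff] at h ⊢
    intro f g
    exact h ⟨f.1, VV_mono (Nat.le_succ c) f.2⟩ g

end Pool.Agent.AbSub
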