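import Pool.Agent.AbSub.Defs

/-!
# Magnus coefficients modulo `M`, decomposition of the group ring, congruences of forms
-/

set_option autoImplicit false

namespace Pool.Agent.AbSub

open Pool.Agent.CSP3

/-! ### the coefficients modulo `M` are the reductions of the integral ones -/

theorem mu_x_all {n : ℕ} (p : ℕ) (w : List (Fin n)) (i : Fin n) :
    mu p w (x i) = if w = [] then 1 else if w = [i] then 1 else 0 := by
  rcases w with _ | ⟨a, _ | ⟨b, w⟩⟩
  · rw [mu_nil, if_pos rfl]
  · have h1 : ¬ ([a] : List (Fin n)) = [] := by simp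
    rw [mu_x, if_neg h1]
    by_cases h : a = i
    · subst h
      rw [if_pos rfl, if_pos rfl]
    · have h2 : ¬ ([a] : List (Fin n)) = [i] := by simpa using h
      rw [if_neg h, if_neg h2]
  · rw [mu_x_two i (by simp), if_neg (by simp), if_neg (by simp)]

theorem mu_one_all {n : ℕ} (p : ℕ) (w : List (Fin n)) :
    mu p w (1 : F n) = if w = [] then 1 else 0 := by
  by_cases h : w = []
  · subst h
    rw [mu_nil, if_pos rfl]
  · rw [mu_one h, if_neg h]

theorem mu_inv_rec {n : ℕ} (p : ℕ) (w : List (Fin n)) (g : F n) :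
    mu p w g⁻¹ = mu p w (1 : F n) - ∑ k ∈ Finset.range w.length,
      mu p (w.take (k + 1)) g * mu p (w.drop (k + 1)) g⁻¹ := by
  have h := mu_mul (p := p) w g g⁻¹
  rw [mul_inv_cancel, Finset.sum_range_succ', List.take_zero, List.drop_zero, mu_nil, one_mul] at h
  rw [h]
  ring

/-- the integral coefficient, as an integer -/
noncomputable def muZ {n : ℕ} (w : List (Fin n)) (g : F n) : ℤ := mu 0 w g

theorem muZ_nil {n : ℕ} (g : F n) : muZ [] g = 1 := mu_nil (p := 0) g

theorem muZ_one {n : ℕ} (w : List (Fin n)) : muZ w (1 : F n) = if w = [] then 1 else 0 :=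
  mu_one_all 0 w

theorem muZ_x {n : ℕ} (w : List (Fin n)) (i : Fin n) :
    muZ w (x i) = if w = [] then 1 else if w = [i] then 1 else 0 := mu_x_all 0 w i

theorem muZ_mul {n : ℕ} (w : List (Fin n)) (g h : F n) :
    muZ w (g * h) = ∑ k ∈ Finset.range (w.length + 1), muZ (w.take k) g * muZ (w.drop k) h :=
  mu_mul (p := 0) w g h

theorem muZ_inv {n : ℕ} (w : List (Fin n)) (g : F n) :
    muZ w g⁻¹ = muZ w (1 : F n) - ∑ k ∈ Finset.range w.length,
      muZ (w.take (k + 1)) g * muZ (w.drop (k + 1)) g⁻¹ := mu_inv_rec 0 w g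

theorem mu_cast' {n : ℕ} (M : ℕ) (w : List (Fin n)) (g : F n) :
    mu M w g = ((muZ w g : ℤ) : ZMod M) := by
  have hmul : ∀ a b : F n, (∀ w : List (Fin n), mu M w a = ((muZ w a : ℤ) : ZMod M)) →
      (∀ w : List (Fin n), mu M w b = ((muZ w b : ℤ) : ZMod M)) →
      ∀ w : List (Fin n), mu M w (a * b) = ((muZ w (a * b) : ℤ) : ZMod M) := by
    intro a b ha hb w
    rw [muZ_mul, mu_mul, Int.cast_sum]
    refine Finset.sum_congr rfl fun k _ => ?_
    rw [Int.cast_mul, ha, hb]
  have hx : ∀ (i : Fin n) (w : List (Fin n)), mu M w (x i) = ((muZ w (x i) : ℤ) : ZMod M) := by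
    intro i w
    rw [muZ_x, mu_x_all]
    split_ifs <;> simp
  have h1 : ∀ w : List (Fin n), mu M w (1 : F n) = ((muZ w (1 : F n) : ℤ) : ZMod M) := by
    intro w
    rw [muZ_one, mu_one_all]
    split_ifs <;> simp
  have hinv : ∀ a : F n, (∀ w : List (Fin n), mu M w a = ((muZ w a : ℤ) : ZMod M)) →
      ∀ k : ℕ, ∀ w : List (Fin n), w.length ≤ k → mu M w a⁻¹ = ((muZ w a⁻¹ : ℤ) : ZMod M) := by
    intro a ha k
    induction k with
    | zero =>
      intro w hw
      have hw' : w = [] := List.length_eq_zero_iff.mp (Nat.le_zero.mp hw)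
      subst hw'
      rw [muZ_nil, mu_nil, Int.cast_one]
    | succ k ih =>
      intro w hw
      rw [muZ_inv, mu_inv_rec, Int.cast_sub, Int.cast_sum, h1]
      congr 1
      refine Finset.sum_congr rfl fun t ht => ?_
      have ht' := Finset.mem_range.mp ht
      rw [Int.cast_mul, ha, ih (w.drop (t + 1)) (by rw [List.length_drop]; omega)]
  have key : ∀ w : List (Fin n), mu M w g = ((muZ w g : ℤ) : ZMod M) := by
    induction g using FreeGroup.induction_on with
    | C1 => exact h1
    | of i => exact hx i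
    | inv_of i _ => exact fun w => hinv (x i) (hx i) w.length w le_rfl
    | mul a b iha ihb => exact hmul a b iha ihb
  exact key w

theorem mu_cast {n : ℕ} (M : ℕ) (w : List (Fin n)) (g : F n) :
    mu M w g = Int.cast (mu 0 w g) := mu_cast' M w g

/-! ### monomials -/

/-- the monomial `∏ (x_i - 1)` -/
noncomputable def mon {n : ℕ} (p : ℕ) (w : List (Fin n)) : RR p n :=
  (w.map fun i => gg p (x i) - 1).prod

theorem muR_gen {n : ℕ} (p : ℕ) (v : List (Fin n)) (i : Fin n) :
    muR p v (gg p (x i) - 1) = if v = [i] then 1 else 0 := by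
  by_cases h : v = []
  · subst h
    rw [map_sub, muR_nil, muR_nil, aug_gg, map_one, sub_self, if_neg (by simp)]
  · rw [muR_sub_one h, mu_x_all, if_neg h]

theorem muR_mon {n : ℕ} (p : ℕ) (w v : List (Fin n)) :
    muR p v (mon p w) = if v = w then 1 else 0 := by
  induction w generalizing v with
  | nil =>
    show muR p v (1 : RR p n) = _
    by_cases h : v = []
    · subst h
      rw [muR_one_nil, if_pos rfl]
    · rw [muR_one h, if_neg h]
  | cons i w ih =>
    show muR p v ((gg p (x i) - 1) * mon p w) = _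
    rw [muR_mul]
    rcases v with _ | ⟨a, v⟩
    · rw [if_neg (by simp)]
      refine Finset.sum_eq_zero fun k _ => ?_
      rw [List.take_nil, muR_gen, if_neg (by simp), zero_mul]
    · rw [Finset.sum_eq_single 1]
      · rw [muR_gen, ih]
        simp only [List.take_succ_cons, List.take_zero, List.drop_succ_cons, List.drop_zero,
          List.cons.injEq, and_true]
        by_cases h1 : a = i
        · by_cases h2 : v = w
          · simp [h1, h2]
          · simp [h1, h2]
        · simp [h1]
      · intro k hkr hk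
        have hkr' := Finset.mem_range.mp hkr
        rw [List.length_cons] at hkr'
        rw [muR_gen, if_neg, zero_mul]
        intro e
        have := congrArg List.length e
        rw [List.length_take, List.length_singleton, List.length_cons] at this
        omega
      · intro h
        exact absurd (Finset.mem_range.mpr (by simp)) h

/-- the integral coefficient of an element of the group ring, as an integer -/
noncomputable def muRZ {n : ℕ} (w : List (Fin n)) (r : RR 0 n) : ℤ := muR 0 w r

/-- if all coefficients of degree at most `c` are divisible by `M`, then `r` is `M` times an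
element plus an element of the filtration -/
theorem decomp {n : ℕ} (c M : ℕ) (r : RR 0 n)
    (h : ∀ w : List (Fin n), w.length ≤ c → ∃ z : ℤ, @Eq ℤ (muR 0 w r) (M * z)) :
    ∃ r' : RR 0 n, ∃ j ∈ JJ 0 n (c + 1), r = M • r' + j := by
  classical
  have hfin : {w : List (Fin n) | w.length < c + 1}.Finite := List.finite_length_lt (Fin n) (c + 1)
  obtain ⟨S, hmem⟩ : ∃ S : Finset (List (Fin n)), ∀ w, w ∈ S ↔ w.length < c + 1 :=
    ⟨hfin.toFinset, fun w => by rw [Set.Finite.mem_toFinset]; rfl⟩
  obtain ⟨z, hz⟩ : ∃ z : List (Fin n) → ZMod 0, ∀ w : List (Fin n), w.length ≤ c →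
      muR 0 w r = (M : ZMod 0) * z w := by
    refine ⟨fun w => if hw : w.length ≤ c then (h w hw).choose else 0, fun w hw => ?_⟩
    beta_reduce
    rw [dif_pos hw]
    exact (h w hw).choose_spec
  refine ⟨∑ w ∈ S, z w • mon 0 w, r - M • ∑ w ∈ S, z w • mon 0 w, ?_, ?_⟩
  · intro v hv
    rw [map_sub, map_nsmul, map_sum]
    have h1 : ∑ w ∈ S, muR 0 v (z w • mon 0 w) = z v := by
      rw [Finset.sum_eq_single v]
      · rw [map_smul, muR_mon, if_pos rfl, smul_eq_mul, mul_one]
      · intro w _ hw
        rw [map_smul, muR_mon, if_neg (fun e => hw e.symm), smul_zero]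
      · intro hv'
        exact absurd ((hmem v).mpr hv) hv'
    rw [h1, sub_eq_zero, nsmul_eq_mul]
    exact hz v (Nat.lt_succ_iff.mp hv)
  · rw [add_sub_cancel]

theorem muRZ_mul {n : ℕ} (w : List (Fin n)) (r s : RR 0 n) :
    muRZ w (r * s) = ∑ k ∈ Finset.range (w.length + 1), muRZ (w.take k) r * muRZ (w.drop k) s :=
  muR_mul 0 w r s

/-- a form of degree at most `c` is constant modulo `M` on the cosets of `D_(c+1)` modulo `M` -/
theorem form_cong {n : ℕ} (c M : ℕ) (f : VV n c) (k : F n) (hk : k ∈ DD M n (c + 1)) (h : F n) :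
    (M : ℤ) ∣ f.1 (gg 0 (k * h)) - f.1 (gg 0 h) := by
  have hdiv : ∀ w : List (Fin n), w ≠ [] → w.length < c + 1 → (M : ℤ) ∣ muZ w k := by
    intro w hw hwc
    have h1 := hk w hw hwc
    rw [mu_cast'] at h1
    exact (ZMod.intCast_zmod_eq_zero_iff_dvd _ _).mp h1
  have hr : ∀ w : List (Fin n), w.length ≤ c →
      ∃ z : ℤ, @Eq ℤ (muR 0 w ((gg 0 k - 1) * gg 0 h)) (M * z) := by
    intro w hw
    have e : (M : ℤ) ∣ muRZ w ((gg 0 k - 1) * gg 0 h) := by
      rw [muRZ_mul]
      refine Finset.dvd_sum fun t _ => ?_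
      refine Dvd.dvd.mul_right ?_ _
      by_cases h0 : w.take t = []
      · have e2 : muRZ (w.take t) (gg 0 k - 1) = 0 :=
          gg_sub_one_mem (p := 0) k (w.take t) (by rw [h0]; simp)
        rw [e2]
        exact dvd_zero _
      · have e2 : muRZ (w.take t) (gg 0 k - 1) = muZ (w.take t) k :=
          muR_sub_one (p := 0) h0 k
        rw [e2]
        exact hdiv _ h0 (by rw [List.length_take]; omega)
    exact e
  obtain ⟨r', j, hj, hrj⟩ := decomp c M _ hr
  have e1 : gg 0 (k * h) - gg 0 h = (gg 0 k - 1) * gg 0 h := by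
    rw [sub_mul, one_mul, map_mul]
  rw [← map_sub, e1, hrj, map_add, f.2.1 j hj, add_zero, map_nsmul, nsmul_eq_mul]
  exact Dvd.intro _ rfl

end Pool.Agent.AbSub
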