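import Pool.Agent.AbSub.PolyD

/-!
# Congruence automorphisms act trivially on the forms modulo `M`
-/

set_option autoImplicit false

namespace Pool.Agent.AbSub

open Pool.Agent.CSP3 (F A RR JJ DD muR mu mm gg x)

variable {n : ℕ}

/-- an additive map on the group ring divisible by `M` on the group elements is divisible by `M` everywhere -/
theorem dvd_form (f : RR 0 n →+ ℤ) (M : ℤ) (h : ∀ z : F n, M ∣ f (gg 0 z)) (r : RR 0 n) : M ∣ f r := by
  induction r using MonoidAlgebra.induction_on with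
  | of g => exact h g
  | add a b ha hb =>
    rw [map_add]
    exact dvd_add ha hb
  | smul c a ha =>
    have h1 : ∀ z : ℤ, M ∣ f (z • a) := by
      intro z
      rw [map_zsmul]
      exact Dvd.dvd.mul_left ha z
    exact h1 c

theorem div_form {n c : ℕ} (v : VV n c) (M : ℕ) (hM : M ≠ 0) (h : ∀ z : F n, (M : ℤ) ∣ v.1 (gg 0 z)) : ∃ u : VV n c, v = M • u := by
  have hd := dvd_form v.1 M h
  choose u hu using hd
  have hM' : (M : ℤ) ≠ 0 := Nat.cast_ne_zero.2 hM
  let U : RR 0 n →+ ℤ :=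
    { toFun := u
      map_zero' := by
        have h1 := hu 0
        rw [map_zero] at h1
        exact (mul_eq_zero.1 h1.symm).resolve_left hM'
      map_add' := by
        intro a b
        have h1 := hu (a + b)
        rw [map_add, hu a, hu b, ← mul_add] at h1
        exact (mul_left_cancel₀ hM' h1).symm }
  have hU : ∀ r, v.1 r = (M : ℤ) * U r := hu
  refine ⟨⟨U, ?_, ?_⟩, ?_⟩
  · intro r hr
    have h1 := hU r
    rw [v.2.1 r hr] at h1
    exact (mul_eq_zero.1 h1.symm).resolve_left hM'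
  · intro r s
    have h1 := v.2.2 r s
    rw [hU, hU] at h1
    exact mul_left_cancel₀ hM' h1
  · refine Subtype.ext (AddMonoidHom.ext fun r => ?_)
    rw [hU r]
    change (M : ℤ) * U r = (M • U) r
    rw [AddMonoidHom.nsmul_apply, nsmul_eq_mul]

/-- `rho_h1` from `form_cong` and `rho_apply` -/
theorem h1_of {n c : ℕ} (M : ℕ) (hM : M ≠ 0)
    (hfc : ∀ (f : VV n c) (k : F n), k ∈ DD M n (c + 1) → ∀ h : F n, (M : ℤ) ∣ f.1 (gg 0 (k * h)) - f.1 (gg 0 h))
    (R : Module.End ℤ (VV n c)) (psi : A n) (happ : ∀ (f : VV n c) (r : RR 0 n), (R f).1 (mm 0 psi.toMonoidHom r) = f.1 r)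
    (hpsi : psi ∈ congr (DD M n (c + 1))) (v : VV n c) : ∃ u : VV n c, R v - v = M • u := by
  obtain ⟨g, hg⟩ := hpsi
  refine div_form (R v - v) M hM fun z => ?_
  obtain ⟨y, rfl⟩ := psi.surjective z
  have h1 : (R v).1 (gg 0 (psi y)) = v.1 (gg 0 y) := by
    have h2 := happ v (gg 0 y)
    rw [Pool.Agent.CSP3.mm_gg] at h2
    exact h2
  have h3 : v.1 (gg 0 (g * y * g⁻¹)) = v.1 (gg 0 y) := by
    rw [map_mul, v.2.2, ← map_mul]
    congr 2
    group
  have h4 := hfc v _ (hg y) (g * y * g⁻¹)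
  rw [inv_mul_cancel_right, h3] at h4
  change (M : ℤ) ∣ (R v).1 (gg 0 (psi y)) - v.1 (gg 0 (psi y))
  rw [h1, ← neg_sub]
  exact (dvd_neg).2 h4

end Pool.Agent.AbSub
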