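import Pool.Agent.AbSub.Defs
import Pool.Agent.AbSub.Fg

/-!
# Topologies which are full on abelian subgroups
-/

set_option autoImplicit false

namespace Pool.Agent.AbSub

/-- Finitely generated commutative groups are residually finite. -/
theorem resid {G : Type*} [CommGroup G] [hG : Group.FG G] (D : Subgroup G) {x : G} (hx : x ∉ D) :
    ∃ N : ℕ, N ≠ 0 ∧ ∀ d ∈ D, ∀ b : G, x ≠ d * b ^ N := by
  by_contra hcon
  push Not at hcon
  have h1 : AddGroup.FG (Additive (G ⧸ D)) := GroupFG.iff_add_fg.mp inferInstance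
  have h2 : Module.Finite ℤ (Additive (G ⧸ D)) := Module.Finite.iff_addGroup_fg.mpr h1
  set y : Additive (G ⧸ D) := Additive.ofMul (x : G ⧸ D) with hy
  have hy0 : y ≠ 0 := by
    intro h0
    apply hx
    rw [← QuotientGroup.eq_one_iff]
    exact h0
  have hdiv : ∀ N : ℕ, N ≠ 0 → ∃ b : Additive (G ⧸ D), y = N • b := by
    intro N hN
    obtain ⟨d, hd, b, hb⟩ := hcon N hN
    refine ⟨Additive.ofMul (b : G ⧸ D), ?_⟩
    rw [hy, ← ofMul_pow, hb, QuotientGroup.mk_mul, (QuotientGroup.eq_one_iff d).2 hd, one_mul,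
      QuotientGroup.mk_pow]
  have hkr : ∀ p : ℕ, p ≠ 0 → ∃ k : ℤ, ((p : ℤ) * k) • y = y := by
    intro p hp
    have h3 : y ∈ (⨅ i : ℕ, (Ideal.span {(p : ℤ)}) ^ i • ⊤ : Submodule ℤ (Additive (G ⧸ D))) := by
      rw [Submodule.mem_iInf]
      intro i
      obtain ⟨b, hb⟩ := hdiv (p ^ i) (pow_ne_zero i hp)
      rw [hb, Ideal.span_singleton_pow, ← natCast_zsmul, Nat.cast_pow]
      exact Submodule.smul_mem_smul (Ideal.mem_span_singleton_self _) trivial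
    rw [Ideal.mem_iInf_smul_pow_eq_bot_iff] at h3
    obtain ⟨⟨r, hr⟩, h4⟩ := h3
    obtain ⟨k, rfl⟩ := Ideal.mem_span_singleton.1 hr
    exact ⟨k, h4⟩
  have hm1 : addOrderOf y ≠ 1 := by
    rw [Ne, AddMonoid.addOrderOf_eq_one_iff]; exact hy0
  have hp := Nat.minFac_prime hm1
  obtain ⟨k, hk⟩ := hkr _ hp.ne_zero
  have h5 : ((addOrderOf y : ℕ) : ℤ) ∣ (Nat.minFac (addOrderOf y) : ℤ) * k - 1 := by
    rw [addOrderOf_dvd_iff_zsmul_eq_zero, sub_smul, hk, one_smul, sub_self]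
  have h6 : (Nat.minFac (addOrderOf y) : ℤ) ∣ (Nat.minFac (addOrderOf y) : ℤ) * k - 1 :=
    (Int.natCast_dvd_natCast.2 (Nat.minFac_dvd _)).trans h5
  have h7 : (Nat.minFac (addOrderOf y) : ℤ) ∣ 1 := by
    have := dvd_sub (dvd_mul_right (Nat.minFac (addOrderOf y) : ℤ) k) h6
    simpa using this
  have h8 := Int.natCast_dvd_natCast.1 (by simpa using h7 : ((Nat.minFac (addOrderOf y) : ℕ) : ℤ) ∣
    ((1 : ℕ) : ℤ))
  exact hp.one_lt.ne' (Nat.dvd_one.1 h8)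

section

variable {Ω : Type*} [Group Ω] {K0 : Set (Subgroup Ω)}

/-- The common refinement of finitely many conditions. -/
theorem Top.inter (hK : Top K0) {ι : Type*} [Finite ι] (Q : ι → Subgroup Ω → Prop)
    (hQ : ∀ i, ∃ K ∈ K0, Q i K) (hmono : ∀ i K L, L ≤ K → Q i K → Q i L) :
    ∃ K ∈ K0, ∀ i, Q i K := by
  classical
  have _ := Fintype.ofFinite ι
  have h1 : ∀ s : Finset ι, ∃ K ∈ K0, ∀ i ∈ s, Q i K := by
    intro s
    induction s using Finset.induction_on with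
    | empty =>
      obtain ⟨K, hK1⟩ := hK.ne
      exact ⟨K, hK1, fun i hi => absurd hi (Finset.notMem_empty i)⟩
    | insert i s _ ih =>
      obtain ⟨K, hK1, h2⟩ := ih
      obtain ⟨L, hL1, h3⟩ := hQ i
      obtain ⟨M, hM1, h4, h5⟩ := hK.dir K hK1 L hL1
      refine ⟨M, hM1, fun j hj => ?_⟩
      rcases Finset.mem_insert.1 hj with rfl | hj
      · exact hmono _ _ _ h5 h3
      · exact hmono _ _ _ h4 (h2 j hj)
  obtain ⟨K, hK1, h2⟩ := h1 Finset.univ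
  exact ⟨K, hK1, fun i => h2 i (Finset.mem_univ i)⟩

/-- In a good subgroup every subgroup is closed. -/
theorem Good.rel_closed {P : Subgroup Ω} (hP : Good K0 P) (D : Subgroup Ω) (hD : D ≤ P) {x : Ω}
    (hx : x ∈ P) (h : ∀ K ∈ K0, ∃ d ∈ D, x * d⁻¹ ∈ K) : x ∈ D := by
  by_contra hcon
  let _ : CommGroup P := { (inferInstance : Group P) with
    mul_comm := fun a b => Subtype.ext (hP.comm a.1 a.2 b.1 b.2) }
  have h1 : Group.FG P := (Group.fg_iff_subgroup_fg P).mpr hP.fg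
  obtain ⟨N, hN, h2⟩ := resid (D.subgroupOf P) (x := ⟨x, hx⟩) (by
    rw [Subgroup.mem_subgroupOf]; exact hcon)
  obtain ⟨K, hK, h3⟩ := hP.full N hN
  obtain ⟨d, hd, h4⟩ := h K hK
  obtain ⟨b, hb, h5⟩ := h3 _ (P.mul_mem hx (P.inv_mem (hD hd))) h4
  apply h2 ⟨d, hD hd⟩ (by rw [Subgroup.mem_subgroupOf]; exact hd) ⟨b, hb⟩
  apply Subtype.ext
  change x = d * b ^ N
  rw [← h5, hP.comm d (hD hd) _ (P.mul_mem hx (P.inv_mem (hD hd))), inv_mul_cancel_right]

/-- Powers in a subgroup of finite index. -/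
theorem exists_pow_mem {G : Type*} [Group G] (H : Subgroup G) [hH : H.FiniteIndex] :
    ∃ n : ℕ, n ≠ 0 ∧ ∀ x : G, x ^ n ∈ H := by
  refine ⟨H.index.factorial, Nat.factorial_ne_zero _, fun x => ?_⟩
  exact Subgroup.pow_mem_of_index_ne_zero_of_dvd hH.index_ne_zero x
    fun m h1 h2 => Nat.dvd_factorial h1 h2

/-- The subgroup of powers of a commutative subgroup. -/
def powers (G : Subgroup Ω) (hab : ∀ a ∈ G, ∀ b ∈ G, a * b = b * a) (s : ℕ) : Subgroup Ω where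
  carrier := {x | ∃ a ∈ G, x = a ^ s}
  one_mem' := ⟨1, G.one_mem, (one_pow s).symm⟩
  mul_mem' := by
    rintro _ _ ⟨a, ha, rfl⟩ ⟨b, hb, rfl⟩
    have hc : Commute a b := hab a ha b hb
    exact ⟨a * b, G.mul_mem ha hb, (hc.mul_pow s).symm⟩
  inv_mem' := by
    rintro _ ⟨a, ha, rfl⟩
    exact ⟨a⁻¹, G.inv_mem ha, (inv_pow a s).symm⟩

theorem pow_mem_of_mem {K : Subgroup Ω} [hn : K.Normal] {x a : Ω} (h : x * a⁻¹ ∈ K) (s : ℕ) :
    x ^ s * (a ^ s)⁻¹ ∈ K := by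
  rw [← QuotientGroup.eq_one_iff] at h ⊢
  have h1 : (x : Ω ⧸ K) = (a : Ω ⧸ K) := by
    rw [QuotientGroup.mk_mul, QuotientGroup.mk_inv, mul_inv_eq_one] at h
    exact h
  rw [QuotientGroup.mk_mul, QuotientGroup.mk_inv, QuotientGroup.mk_pow, QuotientGroup.mk_pow, h1,
    mul_inv_cancel]

/-- A good subgroup is closed. -/
theorem Good.closed (hK : Top K0)
    (hgood : ∀ P : Subgroup Ω, P.FG → (∀ a ∈ P, ∀ b ∈ P, a * b = b * a) →
      ∃ P1 ≤ P, Good K0 P1 ∧ (P1.subgroupOf P).FiniteIndex)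
    {G : Subgroup Ω} (hG : Good K0 G) {g : Ω} (h : ∀ K ∈ K0, ∃ a ∈ G, g * a⁻¹ ∈ K) : g ∈ G := by
  -- `g` commutes with `G`
  have hcomm : ∀ a ∈ G, g * a = a * g := by
    intro a ha
    have h1 : g * a * g⁻¹ * a⁻¹ = 1 := by
      apply hK.sep
      intro K hK1
      have hn := hK.normal K hK1
      obtain ⟨b, hb, h2⟩ := h K hK1
      rw [← QuotientGroup.eq_one_iff] at h2 ⊢
      rw [QuotientGroup.mk_mul, QuotientGroup.mk_inv, mul_inv_eq_one] at h2
      rw [QuotientGroup.mk_mul, QuotientGroup.mk_mul, QuotientGroup.mk_mul, QuotientGroup.mk_inv,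
        QuotientGroup.mk_inv, h2, ← QuotientGroup.mk_mul, hG.comm b hb a ha, QuotientGroup.mk_mul]
      group
    rw [mul_inv_eq_one, mul_inv_eq_iff_eq_mul] at h1
    exact h1
  -- the group generated by `G` and `g`
  set P : Subgroup Ω := G ⊔ Subgroup.zpowers g with hPdef
  have hGP : G ≤ P := le_sup_left
  have hgP : g ∈ P := (le_sup_right : Subgroup.zpowers g ≤ P) (Subgroup.mem_zpowers g)
  have hPfg : P.FG := by
    apply Subgroup.FG.sup hG.fg
    exact ⟨{g}, by rw [Finset.coe_singleton, Subgroup.zpowers_eq_closure]⟩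
  have hPab : ∀ a ∈ P, ∀ b ∈ P, a * b = b * a := by
    have hcl : P = Subgroup.closure ((G : Set Ω) ∪ {g}) := by
      rw [Subgroup.closure_union, Subgroup.closure_eq, ← Subgroup.zpowers_eq_closure]
    have h1 : ∀ a ∈ (G : Set Ω) ∪ {g}, ∀ b ∈ (G : Set Ω) ∪ {g}, a * b = b * a := by
      rintro a (ha | ha) b (hb | hb)
      · exact hG.comm a ha b hb
      · rw [Set.mem_singleton_iff.1 hb]; exact (hcomm a ha).symm
      · rw [Set.mem_singleton_iff.1 ha]; exact hcomm b hb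
      · rw [Set.mem_singleton_iff.1 ha, Set.mem_singleton_iff.1 hb]
    intro a ha b hb
    rw [hcl] at ha hb
    have h3 : ∀ u v : Subgroup.closure ((G : Set Ω) ∪ {g}), u * v = v * u := by
      intro u v
      have := (Subgroup.isMulCommutative_closure (k := (G : Set Ω) ∪ {g}) h1)
      exact mul_comm' u v
    exact congrArg Subtype.val (h3 ⟨a, ha⟩ ⟨b, hb⟩)
  obtain ⟨P1, hP1, hgood1, hfi⟩ := hgood P hPfg hPab
  obtain ⟨s, hs, h3⟩ := exists_pow_mem (P1.subgroupOf P)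
  have h4 : ∀ x ∈ P, x ^ s ∈ P1 := fun x hx => by
    have := h3 ⟨x, hx⟩
    rw [Subgroup.mem_subgroupOf] at this
    exact this
  have h5 : g ^ s ∈ powers G hG.comm s := by
    apply hgood1.rel_closed (powers G hG.comm s)
    · rintro _ ⟨a, ha, rfl⟩
      exact h4 a (hGP ha)
    · exact h4 g hgP
    · intro K hK1
      have hn := hK.normal K hK1
      obtain ⟨a, ha, h6⟩ := h K hK1
      exact ⟨a ^ s, ⟨a, ha, rfl⟩, pow_mem_of_mem h6 s⟩
  obtain ⟨a, ha, h6⟩ := h5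
  have hga : Commute g a⁻¹ := (show Commute g a from hcomm a ha).inv_right
  have hτs : (g * a⁻¹) ^ s = 1 := by
    rw [hga.mul_pow, h6, inv_pow, mul_inv_cancel]
  have hτ : g * a⁻¹ = 1 := by
    apply hK.sep
    intro L hL
    have hLn := hK.normal L hL
    have hLf := hK.fin L hL
    obtain ⟨N, hN, h7⟩ := exists_pow_mem L
    obtain ⟨K', hK', h8⟩ := hG.full (s * N) (mul_ne_zero hs hN)
    obtain ⟨M, hM, hM1, hM2⟩ := hK.dir K' hK' L hL
    have hMn := hK.normal M hM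
    obtain ⟨c, hc, h9⟩ := h M hM
    -- `τ = (c a⁻¹) k`
    set e := c * a⁻¹ with he
    have heG : e ∈ G := G.mul_mem hc (G.inv_mem ha)
    have h10 : (g * a⁻¹) * e⁻¹ ∈ M := by
      rw [he]
      have : g * a⁻¹ * (c * a⁻¹)⁻¹ = g * c⁻¹ := by group
      rw [this]; exact h9
    have h11 : e ^ s ∈ M := by
      have := pow_mem_of_mem h10 s
      rw [hτs, one_mul] at this
      exact (M.inv_mem_iff).1 this
    obtain ⟨b, hb, h12⟩ := h8 _ (G.pow_mem heG s) (hM1 h11)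
    have h13 : e = b ^ N := by
      have h14 : e * (b ^ N)⁻¹ = 1 := by
        apply hG.tf _ (G.mul_mem heG (G.inv_mem (G.pow_mem hb N))) s hs
        have hcm : Commute e (b ^ N)⁻¹ :=
          (show Commute e (b ^ N) from hG.comm e heG _ (G.pow_mem hb N)).inv_right
        rw [hcm.mul_pow, h12, inv_pow, ← pow_mul, mul_comm N s, mul_inv_cancel]
      exact mul_inv_eq_one.1 h14
    have h15 : e ∈ L := by rw [h13]; exact h7 b
    have h16 := L.mul_mem (hM2 h10) h15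
    rwa [inv_mul_cancel_right] at h16
  rw [mul_inv_eq_one] at hτ
  rw [hτ]; exact ha

/-- The main theorem on full topologies. -/
theorem top_main (hK : Top K0)
    (hgood : ∀ P : Subgroup Ω, P.FG → (∀ a ∈ P, ∀ b ∈ P, a * b = b * a) →
      ∃ P1 ≤ P, Good K0 P1 ∧ (P1.subgroupOf P).FiniteIndex)
    (Γ B : Subgroup Ω) (hfg : Γ.FG) (hB : B ≤ Γ) (hfi : (B.subgroupOf Γ).FiniteIndex)
    (hab : ∀ a ∈ B, ∀ b ∈ B, a * b = b * a) :
    (∀ C ≤ Γ, (C.subgroupOf Γ).FiniteIndex → ∃ K ∈ K0, ∀ g ∈ Γ, g ∈ K → g ∈ C) ∧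
      ∀ x, x ∉ Γ → ∃ K ∈ K0, ∀ g ∈ Γ, x * g⁻¹ ∉ K := by
  -- `B` is finitely generated
  have hBfg : B.FG := by
    have h1 : Group.FG Γ := (Group.fg_iff_subgroup_fg Γ).mpr hfg
    have h2 : Group.FG (B.subgroupOf Γ) := Subgroup.fg_of_index_ne_zero _
    have h2' := (Group.fg_iff_subgroup_fg _).1 h2
    have h3 : (B.subgroupOf Γ).map Γ.subtype = B := by
      rw [Subgroup.subgroupOf_map_subtype, inf_eq_left.mpr hB]
    rw [← h3]
    rw [Subgroup.fg_iff_submonoid_fg] at h2' ⊢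
    exact h2'.map Γ.subtype
  obtain ⟨P, hPB, hP, hPfi⟩ := hgood B hBfg hab
  have hPΓ : P ≤ Γ := hPB.trans hB
  have hPfi' : (P.subgroupOf Γ).FiniteIndex := by
    refine ⟨?_⟩
    have h1 := Subgroup.relIndex_mul_relIndex P B Γ hPB hB
    change P.relIndex Γ ≠ 0
    rw [← h1]
    exact mul_ne_zero hPfi.index_ne_zero hfi.index_ne_zero
  have hfin : Finite (Γ ⧸ P.subgroupOf Γ) := Subgroup.finite_quotient_of_finiteIndex
  have hcl : ∀ x, x ∉ P → ∃ K ∈ K0, ∀ p ∈ P, x * p⁻¹ ∉ K := by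
    intro x hx
    by_contra hcon
    push Not at hcon
    exact hx (hP.closed hK hgood hcon)
  have hrep : ∀ g : Γ, ∃ p ∈ P, (g : Ω) = ((g : Γ ⧸ P.subgroupOf Γ).out : Ω) * p := by
    intro g
    obtain ⟨h, hh⟩ := QuotientGroup.mk_out_eq_mul (P.subgroupOf Γ) g
    refine ⟨((h : Γ) : Ω)⁻¹, P.inv_mem (Subgroup.mem_subgroupOf.1 h.2), ?_⟩
    rw [hh, Subgroup.coe_mul, mul_inv_cancel_right]
  constructor
  · intro C hC hCfi
    obtain ⟨N, hN, h1⟩ := exists_pow_mem (C.subgroupOf Γ)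
    obtain ⟨K1, hK1, h2⟩ := hP.full N hN
    obtain ⟨K2, hK2, h3⟩ := hK.inter
      (fun (q : Γ ⧸ P.subgroupOf Γ) K => ((q.out : Γ) : Ω) ∉ P → ∀ p ∈ P, (q.out : Ω) * p⁻¹ ∉ K)
      (fun q => by
        by_cases hq : ((q.out : Γ) : Ω) ∈ P
        · obtain ⟨K, hK'⟩ := hK.ne
          exact ⟨K, hK', fun h => absurd hq h⟩
        · obtain ⟨K, hK', h4⟩ := hcl _ hq
          exact ⟨K, hK', fun _ => h4⟩)
      (fun q K L hLK h h' p hp hL => h h' p hp (hLK hL))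
    obtain ⟨K, hK', h4, h5⟩ := hK.dir K1 hK1 K2 hK2
    refine ⟨K, hK', fun g hg hgK => ?_⟩
    have hgP : g ∈ P := by
      by_contra hcon
      obtain ⟨p, hp, h6⟩ := hrep ⟨g, hg⟩
      simp only at h6
      apply h3 _ _ p⁻¹ (P.inv_mem hp)
      · rw [inv_inv, ← h6]; exact h5 hgK
      · intro h7
        apply hcon
        rw [h6]
        exact P.mul_mem h7 hp
    obtain ⟨b, hb, h6⟩ := h2 g hgP (h4 hgK)
    have h7 := h1 ⟨b, hPΓ hb⟩
    rw [Subgroup.mem_subgroupOf] at h7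
    rw [h6]; exact h7
  · intro x hx
    obtain ⟨K, hK', h3⟩ := hK.inter
      (fun (q : Γ ⧸ P.subgroupOf Γ) K => ∀ p ∈ P, (q.out : Ω)⁻¹ * x * p⁻¹ ∉ K)
      (fun q => hcl _ (fun h => hx (by
        have := Γ.mul_mem (q.out : Γ).2 (hPΓ h)
        rwa [mul_inv_cancel_left] at this)))
      (fun q K L hLK h p hp hL => h p hp (hLK hL))
    refine ⟨K, hK', fun g hg hgK => ?_⟩
    have hn := hK.normal K hK'
    obtain ⟨p, hp, h6⟩ := hrep ⟨g, hg⟩
    set q : Γ ⧸ P.subgroupOf Γ := QuotientGroup.mk (⟨g, hg⟩ : Γ) with hq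
    have h6' : g = ((q.out : Γ) : Ω) * p := h6
    apply h3 q p hp
    have h7 := hn.conj_mem _ hgK ((q.out : Γ) : Ω)⁻¹
    have h8 : ((q.out : Γ) : Ω)⁻¹ * (x * g⁻¹) * (((q.out : Γ) : Ω)⁻¹)⁻¹ =
        ((q.out : Γ) : Ω)⁻¹ * x * p⁻¹ := by
      generalize ((q.out : Γ) : Ω) = c at h6'
      rw [h6']
      group
    rwa [h8] at h7

end

end Pool.Agent.AbSub
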