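import Pool.Agent.AbSub.Mono

/-!
# The group of trace forms of bounded degree is free of finite rank
-/

set_option autoImplicit false

namespace Pool.Agent.AbSub

open Pool.Agent.CSP3 (F A RR JJ DD muR mu mm gg x)

variable {n : ℕ}

/-- the coefficient as an integer -/
noncomputable def coef (w : List (Fin n)) (r : RR 0 n) : ℤ := muR 0 w r

theorem coef_smul (w : List (Fin n)) (r s : RR 0 n) : muR 0 w r • s = coef w r • s := by
  have h : (Int.cast (coef w r) : ZMod 0) = muR 0 w r := Int.cast_id
  rw [← Int.cast_smul_eq_zsmul (ZMod 0) (coef w r) s, h]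

/-- a form of degree at most `c` is determined by its values on the monomials -/
theorem form_eq {c : ℕ} (f : VV n c) (r : RR 0 n) :
    f.1 r = ∑ w ∈ words n c, coef w r * f.1 (mono 0 w) := by
  have h1 := f.2.1 _ (sub_sum_mono_mem 0 c r)
  rw [map_sub, sub_eq_zero, map_sum] at h1
  rw [h1]
  refine Finset.sum_congr rfl fun w _ => ?_
  rw [coef_smul, map_zsmul, smul_eq_mul]

/-- evaluation of the forms on the monomials -/
noncomputable def evalMono (n c : ℕ) : VV n c →ₗ[ℤ] (words n c → ℤ) :=
  AddMonoidHom.toIntLinearMap
    { toFun := fun f w => f.1 (mono 0 w.1)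
      map_zero' := rfl
      map_add' := fun _ _ => rfl }

theorem evalMono_injective (n c : ℕ) : Function.Injective (evalMono n c) := by
  rw [injective_iff_map_eq_zero]
  intro f hf
  apply Subtype.ext
  apply AddMonoidHom.ext
  intro r
  rw [form_eq f r]
  refine Finset.sum_eq_zero fun w hw => ?_
  have h1 := congrFun hf ⟨w, hw⟩
  have h2 : f.1 (mono 0 w) = 0 := h1
  rw [h2, mul_zero]

instance VV_finite (n c : ℕ) : Module.Finite ℤ (VV n c) :=
  Module.Finite.of_injective (evalMono n c) (evalMono_injective n c)

instance VV_free (n c : ℕ) : Module.Free ℤ (VV n c) := by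
  have h : Module.IsTorsionFree ℤ (VV n c) :=
    (evalMono_injective n c).moduleIsTorsionFree _ fun z f => map_smul (evalMono n c) z f
  exact Module.free_of_finite_type_torsion_free'

end Pool.Agent.AbSub
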