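import Pool.Agent.AbSub.Lin
import Pool.Agent.AbSub.Top
import Pool.Agent.AbSub.PolyA
import Pool.Agent.AbSub.PolyB
import Pool.Agent.AbSub.PolyE
import Pool.Agent.AbSub.VFin
import Pool.Agent.AbSub.OutTop

/-!
# The congruence topology of Out(F_n) on the finitely generated virtually abelian subgroups
-/

set_option autoImplicit false

namespace Pool.Agent.AbSub

open Pool.Agent.CSP3 (F A RR JJ DD muR mu mm gg x)

theorem rho_h1 (n c M : ℕ) (hM : M ≠ 0) : ∃ L ∈ KK n, ∀ y ∈ L, ∀ v : VV n c, ∃ u : VV n c,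
    rho n c y v - v = M • u := by
  have : NeZero M := ⟨hM⟩
  obtain ⟨L, hL, h1⟩ := exists_KK (DD M n (c + 1)) inferInstance inferInstance
  refine ⟨L, hL, fun y hy v => ?_⟩
  obtain ⟨ψ, rfl⟩ := QuotientGroup.mk_surjective y
  exact h1_of M hM (fun f k hk h => form_cong c M f k hk h) _ ψ (fun f r => rho_apply c ψ f r)
    ((h1 ψ).1 hy) v

theorem rho_h3 (n c : ℕ) (y : Out n) (h : rho n 1 y = 1) : IsNilpotent (rho n c y - 1) := by
  obtain ⟨ψ, rfl⟩ := QuotientGroup.mk_surjective y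
  exact nil_of_near _ ψ (fun f r => rho_apply c ψ f r) ((rho_one_iff 1 ψ).1 h)

theorem faith (n : ℕ) (y : Out n) (h : ∀ c, rho n c y = 1) : y = 1 :=
  faith_of (fun c => rho n c) (fun c ψ => rho_one_iff c ψ) y h

theorem top_KK (n : ℕ) : Top (KK n) :=
  top_KK_of (fun c => VV n c) (fun c => rho n c) (fun c M hM => rho_h1 n c M hM)
    (fun y h => faith n y h)

theorem good_KK (n : ℕ) (P : Subgroup (Out n)) (hfg : P.FG) (hab : ∀ a ∈ P, ∀ b ∈ P, a * b = b * a) :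
    ∃ P1 ≤ P, Good (KK n) P1 ∧ (P1.subgroupOf P).FiniteIndex :=
  lin (fun c => VV n c) (fun c => rho n c) (fun c M hM => rho_h1 n c M hM)
    (fun c y h => rho_h2 n c y h) (fun c y h => rho_h3 n c y h) (fun y h => faith n y h) P hfg hab

theorem main (n : ℕ) (Γ B : Subgroup (Out n)) (hfg : Γ.FG) (hB : B ≤ Γ)
    (hfi : (B.subgroupOf Γ).FiniteIndex) (hab : ∀ a ∈ B, ∀ b ∈ B, a * b = b * a) :
    (∀ C ≤ Γ, (C.subgroupOf Γ).FiniteIndex → ∃ K : Subgroup (F n), K.Characteristic ∧ K.FiniteIndex ∧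
      ∀ ψ : A n, ψ ∈ congr K → (ψ : Out n) ∈ Γ → (ψ : Out n) ∈ C) ∧
    ∀ φ : A n, (φ : Out n) ∉ Γ → ∃ K : Subgroup (F n), K.Characteristic ∧ K.FiniteIndex ∧
      ∀ ψ : A n, (ψ : Out n) ∈ Γ → φ * ψ⁻¹ ∉ congr K := by
  obtain ⟨h1, h2⟩ := top_main (top_KK n) (fun P h3 h4 => good_KK n P h3 h4) Γ B hfg hB hfi hab
  refine ⟨fun C hC hCfi => ?_, fun φ hφ => ?_⟩
  · obtain ⟨L, ⟨K, hK1, hK2, hK3⟩, h5⟩ := h1 C hC hCfi
    exact ⟨K, hK1, hK2, fun ψ hψ hΓ => h5 _ hΓ ((hK3 ψ).mpr hψ)⟩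
  · obtain ⟨L, ⟨K, hK1, hK2, hK3⟩, h5⟩ := h2 _ hφ
    refine ⟨K, hK1, hK2, fun ψ hψ hm => h5 _ hψ ?_⟩
    have h6 := (hK3 _).mpr hm
    exact h6

end Pool.Agent.AbSub
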