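import Pool.Agent.AbSub.Defs

/-!
# Monomials of the Magnus expansion in the group ring
-/

set_option autoImplicit false

namespace Pool.Agent.AbSub

open Pool.Agent.CSP3 (F A RR JJ DD muR mu mm gg x)

variable {n : ℕ}

/-- the monomial `(x_{w_1} - 1) ... (x_{w_k} - 1)` -/
noncomputable def mono (p : ℕ) (w : List (Fin n)) : RR p n := (w.map fun i => gg p (x i) - 1).prod

theorem mono_nil (p : ℕ) : mono p ([] : List (Fin n)) = 1 := rfl

theorem mono_append (p : ℕ) (v w : List (Fin n)) : mono p (v ++ w) = mono p v * mono p w := by
  rw [mono, List.map_append, List.prod_append, mono, mono]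

theorem mono_single (p : ℕ) (i : Fin n) : mono p [i] = gg p (x i) - 1 := by
  rw [mono, List.map_singleton, List.prod_singleton]

theorem dd_gx (p : ℕ) (i j : Fin n) :
    Pool.Agent.CSP3.dd p j (gg p (x i) - 1) = if i = j then 1 else 0 := by
  rw [map_sub, Pool.Agent.CSP3.dd_gg, Pool.Agent.CSP3.fox_x, Pool.Agent.CSP3.dd_one, sub_zero]

theorem aug_gx (p : ℕ) (i : Fin n) : Pool.Agent.CSP3.aug p (gg p (x i) - 1) = 0 := by
  rw [map_sub, Pool.Agent.CSP3.aug_gg, map_one, sub_self]

/-- the coefficients of a monomial -/
theorem muR_mono (p : ℕ) (v w : List (Fin n)) : muR p v (mono p w) = if v = w then 1 else 0 := by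
  induction v using List.reverseRecOn generalizing w with
  | nil =>
    rw [Pool.Agent.CSP3.muR_nil]
    induction w using List.reverseRecOn with
    | nil => rw [mono_nil, map_one, if_pos rfl]
    | append_singleton w i _ =>
      rw [mono_append, mono_single, map_mul, aug_gx, mul_zero, if_neg]
      intro h
      have := congrArg List.length h
      simp at this
  | append_singleton v j ih =>
    rw [Pool.Agent.CSP3.muR_append]
    induction w using List.reverseRecOn with
    | nil =>
      rw [mono_nil, Pool.Agent.CSP3.dd_one, map_zero, if_neg]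
      intro h
      have := congrArg List.length h
      simp at this
    | append_singleton w i _ =>
      rw [mono_append, mono_single, Pool.Agent.CSP3.dd_mul, dd_gx, aug_gx, zero_smul, add_zero]
      by_cases hij : i = j
      · subst hij
        rw [if_pos rfl, mul_one, ih w]
        by_cases hvw : v = w
        · rw [if_pos hvw, if_pos (by rw [hvw])]
        · rw [if_neg hvw, if_neg]
          intro h
          exact hvw (List.append_left_injective [i] h)
      · rw [if_neg hij, mul_zero, map_zero, if_neg]
        intro h
        have h2 := List.append_inj_right' h rfl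
        exact hij (List.cons.inj h2).1.symm

/-- the words of length at most `c` -/
noncomputable def words (n c : ℕ) : Finset (List (Fin n)) := (List.finite_length_le (Fin n) c).toFinset

theorem mem_words {c : ℕ} {w : List (Fin n)} : w ∈ words n c ↔ w.length ≤ c := by
  rw [words, Set.Finite.mem_toFinset]
  rfl

theorem muR_sum_mono (p c : ℕ) (a : List (Fin n) → ZMod p) (v : List (Fin n)) :
    muR p v (∑ w ∈ words n c, a w • mono p w) = if v.length ≤ c then a v else 0 := by
  rw [map_sum]
  have h1 : ∀ w ∈ words n c, muR p v (a w • mono p w) = if v = w then a v else 0 := by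
    intro w _
    rw [map_smul, muR_mono, smul_eq_mul]
    by_cases h : v = w
    · rw [if_pos h, if_pos h, mul_one, h]
    · rw [if_neg h, if_neg h, mul_zero]
  rw [Finset.sum_congr rfl h1, Finset.sum_ite_eq]
  by_cases h : v.length ≤ c
  · rw [if_pos h, if_pos (mem_words.mpr h)]
  · rw [if_neg h, if_neg fun h2 => h (mem_words.mp h2)]

/-- every element is the sum of its monomials up to degree `c` -/
theorem sub_sum_mono_mem (p c : ℕ) (r : RR p n) :
    r - ∑ w ∈ words n c, muR p w r • mono p w ∈ JJ p n (c + 1) := by
  intro v hv
  rw [map_sub, muR_sum_mono p c (fun w => muR p w r) v, if_pos (Nat.lt_succ_iff.mp hv), sub_self]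

/-- if the coefficients of degree at most `c` are divisible by `M` then `r` is `M` times an element
plus an element of degree greater than `c` -/
theorem decomp_mono (p c M : ℕ) (r : RR p n)
    (h : ∀ w : List (Fin n), w.length ≤ c → ∃ z : ZMod p, muR p w r = M * z) :
    ∃ r' : RR p n, ∃ j ∈ JJ p n (c + 1), r = M • r' + j := by
  classical
  choose! z hz using h
  refine ⟨∑ w ∈ words n c, z w • mono p w, _, sub_sum_mono_mem p c r, ?_⟩
  rw [Finset.smul_sum]
  have h1 : ∀ w ∈ words n c, M • (z w • mono p w) = muR p w r • mono p w := by
    intro w hw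
    rw [← Nat.cast_smul_eq_nsmul (ZMod p) M, smul_smul, ← hz w (mem_words.mp hw)]
  rw [Finset.sum_congr rfl h1, add_sub_cancel]

end Pool.Agent.AbSub
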