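import Pool.Agent.AbSub.Traces

/-!
# Automorphisms which fix the forms of degree one are the identity on the graded pieces
-/

set_option autoImplicit false

namespace Pool.Agent.AbSub

open Pool.Agent.CSP3 (F A RR JJ DD muR mu mm gg x)

variable {n : ℕ}

theorem trC_single (j : Fin n) (g : F n) : tr [j] g = mu 0 [j] g := by
  unfold tr
  rw [List.length_singleton, Finset.sum_range_one, List.rotate_zero]

theorem mapC_x_mem (psi : A n) (hpsi : ∀ (f : VV n 1) (g : F n), f.1 (gg 0 (psi g)) = f.1 (gg 0 g)) (i : Fin n) :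
    psi.toMonoidHom (x i) * (x i)⁻¹ ∈ DD 0 n (1 + 1) := by
  refine Pool.Agent.CSP3.mul_inv_mem_DD fun w hw => ?_
  rcases w with _ | ⟨j, w⟩
  · rw [Pool.Agent.CSP3.mu_nil, Pool.Agent.CSP3.mu_nil]
  · have hw0 : w = [] := by
      rw [List.length_cons] at hw
      exact List.length_eq_zero_iff.1 (by omega)
    subst hw0
    obtain ⟨f, hf⟩ := tr_mem [j] (by simp)
    have h1 : tr [j] (psi (x i)) = tr [j] (x i) := by
      rw [← hf, ← hf]
      exact hpsi f (x i)
    rw [trC_single, trC_single] at h1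
    exact h1

/-- an automorphism which fixes the forms of degree one is the identity on `J_k / J_(k+1)` -/
theorem near {n : ℕ} (psi : A n) (hpsi : ∀ (f : VV n 1) (g : F n), f.1 (gg 0 (psi g)) = f.1 (gg 0 g)) {k : ℕ} {r : RR 0 n}
    (hr : r ∈ JJ 0 n k) : mm 0 psi.toMonoidHom r - r ∈ JJ 0 n (k + 1) := by
  intro w hw
  rw [map_sub, Pool.Agent.CSP3.muR_map_near psi.toMonoidHom (e := 1) (mapC_x_mem psi hpsi) hr w hw, sub_self]

end Pool.Agent.AbSub
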