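import Pool.Agent.AbSub.PolyC

/-!
# Automorphisms which fix the forms of degree one act unipotently on the forms of degree at most `c`
-/

set_option autoImplicit false

namespace Pool.Agent.AbSub

open Pool.Agent.CSP3 (F A RR JJ DD muR mu mm gg x)

variable {n : ℕ}

theorem mm_symm_mm (psi : A n) (s : RR 0 n) : mm 0 psi.toMonoidHom (mm 0 psi.symm.toMonoidHom s) = s := by
  rw [Pool.Agent.CSP3.mm_comp]
  have h : psi.toMonoidHom.comp psi.symm.toMonoidHom = MonoidHom.id (F n) := by
    ext y
    simp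
  rw [h, Pool.Agent.CSP3.mm_id]

/-- the action on the forms is unipotent: `rho_h3` from `rho_apply` and `rho_one_iff` -/
theorem nil_of_near {n c : ℕ} (R : Module.End ℤ (VV n c)) (psi : A n)
    (happ : ∀ (f : VV n c) (r : RR 0 n), (R f).1 (mm 0 psi.toMonoidHom r) = f.1 r)
    (hpsi : ∀ (f : VV n 1) (g : F n), f.1 (gg 0 (psi g)) = f.1 (gg 0 g)) : IsNilpotent (R - 1) := by
  have key : ∀ j : ℕ, j ≤ c + 1 → ∀ f : VV n c, ∀ r ∈ JJ 0 n (c + 1 - j), (((R - 1) ^ j) f).1 r = 0 := by
    intro j
    induction j with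
    | zero =>
      intro _ f r hr
      exact f.2.1 r hr
    | succ j ih =>
      intro hj f s hs
      set g : VV n c := ((R - 1) ^ j) f with hg
      have h1 : ((R - 1) ^ (j + 1)) f = R g - g := by
        rw [pow_succ', Module.End.mul_apply, LinearMap.sub_apply, Module.End.one_apply]
      rw [h1]
      have h2 : s = mm 0 psi.toMonoidHom (mm 0 psi.symm.toMonoidHom s) := (mm_symm_mm psi s).symm
      set r := mm 0 psi.symm.toMonoidHom s with hr
      have h3 : r ∈ JJ 0 n (c + 1 - (j + 1)) := Pool.Agent.CSP3.mm_mem_JJ _ hs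
      have h4 := near psi hpsi h3
      have h5 : c + 1 - (j + 1) + 1 = c + 1 - j := by omega
      rw [h5] at h4
      have h6 := ih (by omega) f _ h4
      rw [← hg, map_sub, sub_eq_zero] at h6
      change (R g).1 s - g.1 s = 0
      rw [sub_eq_zero, h2, happ, h6]
  refine ⟨c + 1, LinearMap.ext fun f => Subtype.ext (AddMonoidHom.ext fun r => ?_)⟩
  have h1 := key (c + 1) le_rfl f r (by rw [Nat.sub_self]; exact Pool.Agent.CSP3.JJ_zero r)
  rw [h1]
  rfl

end Pool.Agent.AbSub
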