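import Pool.Agent.AbSub.PolyA
import Pool.Agent.AbSub.PolyB
import Pool.Agent.AbSub.PolyE
import Pool.Agent.AbSub.OutTop

/-!
# The representations `rho n c`: congruence kernels act trivially modulo `M`, the kernel of `rho n 1` acts unipotently
-/

set_option autoImplicit false

namespace Pool.Agent.AbSub

open Pool.Agent.CSP3 (F A RR JJ DD muR mu mm gg x)

theorem rho_h1 (n c M : ℕ) (hM : M ≠ 0) : ∃ L ∈ KK n, ∀ y ∈ L, ∀ v : VV n c, ∃ u : VV n c,
    rho n c y v - v = M • u := by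
  have : NeZero M := ⟨hM⟩
  obtain ⟨L, hL, hL'⟩ := exists_KK (DD M n (c + 1)) inferInstance inferInstance
  refine ⟨L, hL, fun y hy v => ?_⟩
  obtain ⟨ψ, rfl⟩ := QuotientGroup.mk_surjective y
  exact h1_of M hM (fun f k hk h => form_cong c M f k hk h) (rho n c (ψ : Out n)) ψ (rho_apply c ψ) ((hL' ψ).1 hy) v

theorem rho_h3 (n c : ℕ) (y : Out n) (h : rho n 1 y = 1) : IsNilpotent (rho n c y - 1) := by
  obtain ⟨ψ, rfl⟩ := QuotientGroup.mk_surjective y
  exact nil_of_near (rho n c (ψ : Out n)) ψ (rho_apply c ψ) ((rho_one_iff 1 ψ).1 h)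

end Pool.Agent.AbSub
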