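import Pool.Agent.AbSub.Defs

/-!
# Traces of Magnus coefficients

`tr w g` is the sum of the Magnus coefficients of `g` at the rotations of `w`; it is a class
function, given by a trace form of degree at most the length of `w`. `mu_syl` computes the
coefficient of a word with different neighbours in a product of at most that many syllables.
-/

set_option autoImplicit false

namespace Pool.Agent.AbSub

open Pool.Agent.CSP3 (F A RR JJ DD muR mu mm gg x)

variable {n : ℕ}

/-! ## the trace property -/

theorem rotate_add_take {α : Type*} (w : List α) (j i : ℕ) (hi : i ≤ w.length) :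
    (w.rotate ((j + i) % w.length)).take (w.length - i) = (w.rotate j).drop i := by
  rw [List.rotate_mod, ← List.rotate_rotate,
    List.rotate_eq_drop_append_take (by rw [List.length_rotate]; exact hi)]
  rw [List.take_append_of_le_length (by rw [List.length_drop, List.length_rotate]),
    List.take_of_length_le (by rw [List.length_drop, List.length_rotate])]

theorem rotate_add_drop {α : Type*} (w : List α) (j i : ℕ) (hi : i ≤ w.length) :
    (w.rotate ((j + i) % w.length)).drop (w.length - i) = (w.rotate j).take i := by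
  rw [List.rotate_mod, ← List.rotate_rotate,
    List.rotate_eq_drop_append_take (by rw [List.length_rotate]; exact hi)]
  rw [List.drop_append_of_le_length (by rw [List.length_drop, List.length_rotate]),
    List.drop_of_length_le (by rw [List.length_drop, List.length_rotate]), List.nil_append]

theorem sum_rotate_mul_comm (p : ℕ) (w : List (Fin n)) (r s : RR p n) :
    ∑ j ∈ Finset.range w.length, muR p (w.rotate j) (r * s) =
      ∑ j ∈ Finset.range w.length, muR p (w.rotate j) (s * r) := by
  have h1 : ∀ a b : RR p n, ∑ j ∈ Finset.range w.length, muR p (w.rotate j) (a * b) =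
      ∑ q ∈ Finset.range w.length ×ˢ Finset.range (w.length + 1),
        muR p ((w.rotate q.1).take q.2) a * muR p ((w.rotate q.1).drop q.2) b := by
    intro a b
    rw [Finset.sum_product]
    refine Finset.sum_congr rfl fun j _ => ?_
    rw [Pool.Agent.CSP3.muR_mul, List.length_rotate]
  rw [h1, h1]
  refine Finset.sum_nbij' (fun q => ((q.1 + q.2) % w.length, w.length - q.2))
    (fun q => ((q.1 + q.2) % w.length, w.length - q.2)) ?_ ?_ ?_ ?_ ?_
  · rintro ⟨j, i⟩ hq
    simp only [Finset.mem_product, Finset.mem_range] at hq ⊢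
    exact ⟨Nat.mod_lt _ (by omega), by omega⟩
  · rintro ⟨j, i⟩ hq
    simp only [Finset.mem_product, Finset.mem_range] at hq ⊢
    exact ⟨Nat.mod_lt _ (by omega), by omega⟩
  · rintro ⟨j, i⟩ hq
    simp only [Finset.mem_product, Finset.mem_range] at hq
    refine Prod.ext ?_ ?_
    · show ((j + i) % w.length + (w.length - i)) % w.length = j
      rw [Nat.mod_add_mod, show j + i + (w.length - i) = j + w.length by omega, Nat.add_mod_right,
        Nat.mod_eq_of_lt hq.1]
    · show w.length - (w.length - i) = i
      omega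
  · rintro ⟨j, i⟩ hq
    simp only [Finset.mem_product, Finset.mem_range] at hq
    refine Prod.ext ?_ ?_
    · show ((j + i) % w.length + (w.length - i)) % w.length = j
      rw [Nat.mod_add_mod, show j + i + (w.length - i) = j + w.length by omega, Nat.add_mod_right,
        Nat.mod_eq_of_lt hq.1]
    · show w.length - (w.length - i) = i
      omega
  · rintro ⟨j, i⟩ hq
    simp only [Finset.mem_product, Finset.mem_range] at hq
    show muR p ((w.rotate j).take i) r * muR p ((w.rotate j).drop i) s =
      muR p ((w.rotate ((j + i) % w.length)).take (w.length - i)) s *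
        muR p ((w.rotate ((j + i) % w.length)).drop (w.length - i)) r
    rw [rotate_add_take w j i (by omega), rotate_add_drop w j i (by omega), mul_comm]

theorem tr_mul_comm {n : ℕ} (w : List (Fin n)) (g h : F n) : tr w (g * h) = tr w (h * g) := by
  have key := sum_rotate_mul_comm 0 w (gg 0 g) (gg 0 h)
  rw [← map_mul, ← map_mul] at key
  exact key

/-- the trace form of a word modulo `p` -/
noncomputable def trHomMod (p : ℕ) (w : List (Fin n)) : RR p n →+ ZMod p :=
  (∑ j ∈ Finset.range w.length, muR p (w.rotate j) : RR p n →ₗ[ZMod p] ZMod p).toAddMonoidHom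

theorem trHomMod_apply (p : ℕ) (w : List (Fin n)) (r : RR p n) :
    trHomMod p w r = ∑ j ∈ Finset.range w.length, muR p (w.rotate j) r :=
  LinearMap.sum_apply _ _ _

/-- the trace form of a word -/
noncomputable def trHom (w : List (Fin n)) : RR 0 n →+ ℤ := trHomMod 0 w

theorem trHom_apply (w : List (Fin n)) (r : RR 0 n) :
    trHom w r = ∑ j ∈ Finset.range w.length, muR 0 (w.rotate j) r :=
  trHomMod_apply 0 w r

theorem tr_mem {n : ℕ} (w : List (Fin n)) (hw : w ≠ []) :
    ∃ f : VV n w.length, ∀ g : F n, f.1 (gg 0 g) = tr w g := by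
  have _ := hw
  refine ⟨⟨trHom w, ?_, ?_⟩, fun g => trHom_apply w (gg 0 g)⟩
  · intro r hr
    refine (trHom_apply w r).trans (Finset.sum_eq_zero fun j _ => ?_)
    exact hr _ (by rw [List.length_rotate]; omega)
  · intro r s
    exact (trHom_apply w _).trans ((sum_rotate_mul_comm 0 w r s).trans (trHom_apply w _).symm)

/-! ## coefficients of products of syllables -/

/-- the elements whose coefficients at words with a letter different from `i` vanish -/
theorem mu_bad_mul {p : ℕ} {i : Fin n} {a b : F n}
    (ha : ∀ w : List (Fin n), (∃ j ∈ w, j ≠ i) → mu p w a = 0)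
    (hb : ∀ w : List (Fin n), (∃ j ∈ w, j ≠ i) → mu p w b = 0)
    (w : List (Fin n)) (hw : ∃ j ∈ w, j ≠ i) : mu p w (a * b) = 0 := by
  obtain ⟨j, hj, hji⟩ := hw
  rw [Pool.Agent.CSP3.mu_mul]
  refine Finset.sum_eq_zero fun k _ => ?_
  rw [← List.take_append_drop k w, List.mem_append] at hj
  rcases hj with h | h
  · rw [ha _ ⟨j, h, hji⟩, zero_mul]
  · rw [hb _ ⟨j, h, hji⟩, mul_zero]

theorem mu_bad_inv {p : ℕ} {i : Fin n} {a : F n}
    (ha : ∀ w : List (Fin n), (∃ j ∈ w, j ≠ i) → mu p w a = 0) (k : ℕ) :
    ∀ w : List (Fin n), w.length ≤ k → (∃ j ∈ w, j ≠ i) → mu p w a⁻¹ = 0 := by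
  induction k with
  | zero =>
    rintro w hk ⟨j, hj, _⟩
    have : w = [] := List.length_eq_zero_iff.mp (by omega)
    subst this
    exact absurd hj (List.not_mem_nil)
  | succ k ih =>
    rintro w hk ⟨j, hj, hji⟩
    have hw : w ≠ [] := by
      rintro rfl
      exact absurd hj (List.not_mem_nil)
    have h := Pool.Agent.CSP3.mu_mul (p := p) w a a⁻¹
    rw [mul_inv_cancel, Pool.Agent.CSP3.mu_one hw, Finset.sum_eq_single 0] at h
    · rw [List.take_zero, List.drop_zero, Pool.Agent.CSP3.mu_nil, one_mul] at h
      exact h.symm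
    · intro t ht h0
      rw [← List.take_append_drop t w, List.mem_append] at hj
      rcases hj with h' | h'
      · rw [ha _ ⟨j, h', hji⟩, zero_mul]
      · rw [ih (w.drop t) (by rw [List.length_drop]; omega) ⟨j, h', hji⟩, mul_zero]
    · intro h'
      exact absurd (Finset.mem_range.mpr (Nat.succ_pos _)) h'

theorem mu_zpow_bad {p : ℕ} (i : Fin n) (e : ℤ) (w : List (Fin n)) (hw : ∃ j ∈ w, j ≠ i) :
    mu p w (x i ^ e) = 0 := by
  have h1 : ∀ w : List (Fin n), (∃ j ∈ w, j ≠ i) → mu p w (x i) = 0 := by
    rintro w ⟨j, hj, hji⟩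
    rcases w with _ | ⟨a, _ | ⟨b, w⟩⟩
    · exact absurd hj (List.not_mem_nil)
    · rw [List.mem_singleton] at hj
      subst hj
      rw [Pool.Agent.CSP3.mu_x, if_neg hji]
    · exact Pool.Agent.CSP3.mu_x_two i (by simp)
  have h0 : ∀ w : List (Fin n), (∃ j ∈ w, j ≠ i) → mu p w (1 : F n) = 0 := by
    rintro w ⟨j, hj, _⟩
    refine Pool.Agent.CSP3.mu_one ?_
    rintro rfl
    exact absurd hj (List.not_mem_nil)
  have h2 : ∀ k : ℕ, ∀ w : List (Fin n), (∃ j ∈ w, j ≠ i) → mu p w (x i ^ k) = 0 := by
    intro k
    induction k with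
    | zero => rw [pow_zero]; exact h0
    | succ k ih => rw [pow_succ]; exact fun w hw => mu_bad_mul ih h1 w hw
  cases e with
  | ofNat k =>
    rw [Int.ofNat_eq_natCast, zpow_natCast]
    exact h2 k w hw
  | negSucc k =>
    rw [zpow_negSucc]
    exact mu_bad_inv (h2 (k + 1)) w.length w le_rfl hw

/-- the coefficients of degree one, as a homomorphism -/
noncomputable def mu1 (p : ℕ) (j : Fin n) : F n →* Multiplicative (ZMod p) where
  toFun g := Multiplicative.ofAdd (mu p [j] g)
  map_one' := by
    rw [Pool.Agent.CSP3.mu_one (List.cons_ne_nil _ _)]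
    rfl
  map_mul' g h := by
    have e : mu p [j] (g * h) = mu p [j] g + mu p [j] h := by
      rw [Pool.Agent.CSP3.mu_mul]
      simp only [List.length_singleton, Finset.sum_range_succ, Finset.sum_range_zero, zero_add,
        List.take_zero, List.drop_zero, Pool.Agent.CSP3.mu_nil, one_mul]
      rw [show [j].take 1 = [j] from rfl, show [j].drop 1 = [] from rfl,
        Pool.Agent.CSP3.mu_nil, mul_one, add_comm]
    rw [e]
    rfl

theorem mu_single_zpow (p : ℕ) (i j : Fin n) (e : ℤ) :
    mu p [j] (x i ^ e) = if j = i then (e : ZMod p) else 0 := by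
  have h : mu1 p j (x i ^ e) = (mu1 p j (x i)) ^ e := map_zpow _ _ _
  have h2 : Multiplicative.toAdd (mu1 p j (x i ^ e)) =
      e • Multiplicative.toAdd (mu1 p j (x i)) := by
    rw [h]; rfl
  have h3 : Multiplicative.toAdd (mu1 p j (x i)) = if j = i then 1 else 0 :=
    Pool.Agent.CSP3.mu_x (p := p) i j
  rw [h3] at h2
  have h4 : Multiplicative.toAdd (mu1 p j (x i ^ e)) = if j = i then (e : ZMod p) else 0 := by
    rw [h2]
    split_ifs
    · simp
    · simp
  exact h4

theorem mu_syl_mod (p : ℕ) (l : List (Fin n × ℤ)) (w : List (Fin n)) (hw : w.IsChain (· ≠ ·))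
    (hl : l.length ≤ w.length) : mu p w (syl l) =
      if w = l.map Prod.fst then (((l.map Prod.snd).prod : ℤ) : ZMod p) else 0 := by
  induction l generalizing w with
  | nil =>
    show mu p w (1 : F n) = _
    by_cases h : w = []
    · subst h
      rw [Pool.Agent.CSP3.mu_nil]
      simp
    · rw [Pool.Agent.CSP3.mu_one h, if_neg (by simpa using h)]
  | cons q l ih =>
    obtain ⟨i, e⟩ := q
    rcases w with _ | ⟨a, w⟩
    · simp at hl
    rw [List.length_cons, List.length_cons] at hl
    have e1 : syl ((i, e) :: l) = x i ^ e * syl l := by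
      simp [syl]
    have hw' : w.IsChain (· ≠ ·) := hw.tail
    rw [e1, Pool.Agent.CSP3.mu_mul, List.length_cons, Finset.sum_range_succ', Finset.sum_range_succ',
      Finset.sum_eq_zero, List.take_zero, List.drop_zero, Pool.Agent.CSP3.mu_nil, one_mul,
      ih (a :: w) hw (by rw [List.length_cons]; omega), if_neg, add_zero, zero_add]
    · show mu p [a] (x i ^ e) * mu p w (syl l) = _
      rw [mu_single_zpow, ih w hw' (by omega)]
      have hiff : (a :: w = ((i, e) :: l).map Prod.fst) ↔ (a = i ∧ w = l.map Prod.fst) := by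
        rw [List.map_cons, List.cons.injEq]
      by_cases ha : a = i
      · by_cases hwl : w = l.map Prod.fst
        · rw [if_pos ha, if_pos hwl, if_pos (hiff.mpr ⟨ha, hwl⟩), List.map_cons, List.prod_cons,
            Int.cast_mul]
        · rw [if_neg hwl, if_neg (fun h => hwl (hiff.mp h).2), mul_zero]
      · rw [if_neg ha, if_neg (fun h => ha (hiff.mp h).1), zero_mul]
    · intro h
      have := congrArg List.length h
      rw [List.length_cons, List.length_map] at this
      omega
    · intro k hk
      rw [Finset.mem_range] at hk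
      rcases w with _ | ⟨b, w⟩
      · simp at hk
      have hab : a ≠ b := by
        have := hw
        rw [List.isChain_cons_cons] at this
        exact this.1
      have hbad : ∃ j ∈ (a :: b :: w).take (k + 1 + 1), j ≠ i := by
        by_cases ha : a = i
        · refine ⟨b, by simp, ?_⟩
          rw [← ha]
          exact hab.symm
        · exact ⟨a, by simp, ha⟩
      rw [mu_zpow_bad i e _ hbad, zero_mul]

theorem mu_syl {n : ℕ} (l : List (Fin n × ℤ)) (w : List (Fin n)) (hw : w.IsChain (· ≠ ·))
    (hl : l.length ≤ w.length) : mu 0 w (syl l) =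
      if w = l.map Prod.fst then ((l.map Prod.snd).prod : ℤ) else 0 :=
  mu_syl_mod 0 l w hw hl

end Pool.Agent.AbSub
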